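import Mathlib

/-! A contraction for the remainder dynamics `t ↦ b (t + 2 δ)`, `δ ∈ {0, 1, -1}`, `b > 2`. -/

namespace Pool.Agent.Lib.MP_e0da8e_an.TR

open Filter Topology

/-- The potential. -/
noncomputable def pot (b t : ℝ) : ℝ := if |t| ≤ 4 then b + 2 - |t| else 0

/-- Iterates of the transfer operator, applied to the potential. -/
noncomputable def it (b : ℝ) : ℕ → ℝ → ℝ
  | 0, t => pot b t
  | n + 1, t => it b n (b * t) + 1 / 2 * it b n (b * (t - 2)) + 1 / 2 * it b n (b * (t + 2))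

lemma pot_nonneg {b : ℝ} (hb : 2 < b) (t : ℝ) : 0 ≤ pot b t := by
  unfold pot
  split_ifs with h
  · linarith
  · exact le_rfl

lemma pot_neg (b t : ℝ) : pot b (-t) = pot b t := by simp [pot]

lemma pot_dead (b : ℝ) {t : ℝ} (h : 4 < |t|) : pot b t = 0 := if_neg (not_le.2 h)

lemma step_aux {b : ℝ} (hb : 2 < b) {t : ℝ} (ht : 0 ≤ t) (h4 : t ≤ 4) {k : ℝ}
    (hk : k ≤ (b - 2) / 2) (hk' : k ≤ (b - 1) * t) :
    pot b (b * t) + 1 / 2 * pot b (b * (t - 2)) + 1 / 2 * pot b (b * (t + 2)) ≤ b + 2 - t - k := by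
  have e3 : pot b (b * (t + 2)) = 0 := by
    refine pot_dead b ?_
    rw [abs_of_nonneg (by positivity)]
    nlinarith
  have hbt : 0 ≤ (b - 2) * t := mul_nonneg (by linarith) ht
  rw [e3]
  unfold pot
  rw [abs_of_nonneg (by positivity : 0 ≤ b * t), abs_mul, abs_of_pos (by linarith : 0 < b)]
  rcases abs_cases (t - 2) with ⟨e, e'⟩ | ⟨e, e'⟩ <;> rw [e] <;> split_ifs with h1 h2 h2 <;>
    nlinarith

lemma step_le {b : ℝ} (hb : 2 < b) (t : ℝ) {k : ℝ} (hk : k ≤ (b - 2) / 2)
    (hk' : k ≤ (b - 1) * |t|) :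
    pot b (b * t) + 1 / 2 * pot b (b * (t - 2)) + 1 / 2 * pot b (b * (t + 2)) ≤
      if |t| ≤ 4 then b + 2 - |t| - k else 0 := by
  have hb0 : 0 < b := by linarith
  split_ifs with h
  · rcases abs_cases t with ⟨e, e'⟩ | ⟨e, e'⟩
    · rw [e] at h hk' ⊢
      exact step_aux hb e' h hk hk'
    · rw [e] at h hk' ⊢
      have := step_aux hb (by linarith : 0 ≤ -t) h hk hk'
      rw [show b * -t = -(b * t) by ring, show b * (-t - 2) = -(b * (t + 2)) by ring,
        show b * (-t + 2) = -(b * (t - 2)) by ring, pot_neg, pot_neg, pot_neg] at this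
      linarith
  · have h' := not_le.1 h
    have a1 := abs_sub_abs_le_abs_sub t 2
    have a2 := abs_sub_abs_le_abs_add t 2
    rw [abs_two] at a1 a2
    rw [pot_dead, pot_dead, pot_dead]
    · simp
    all_goals rw [abs_mul, abs_of_pos hb0]; nlinarith

lemma step0 {b : ℝ} (hb : 2 < b) (t : ℝ) :
    pot b (b * t) + 1 / 2 * pot b (b * (t - 2)) + 1 / 2 * pot b (b * (t + 2)) ≤ pot b t := by
  have := step_le hb t (k := 0) (by linarith) (mul_nonneg (by linarith) (abs_nonneg t))
  simpa [pot] using this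

lemma step1 {b : ℝ} (hb : 2 < b) {t : ℝ} (ht : 2 * b - 4 ≤ b * |t|) :
    pot b (b * t) + 1 / 2 * pot b (b * (t - 2)) + 1 / 2 * pot b (b * (t + 2)) ≤
      (b + 6) / (2 * (b + 2)) * pot b t := by
  have h0 := abs_nonneg t
  have := step_le hb t (k := (b - 2) / 2) le_rfl (by nlinarith)
  refine this.trans ?_
  unfold pot
  split_ifs with h
  · rw [div_mul_eq_mul_div, le_div_iff₀ (by linarith)]
    nlinarith
  · simp

lemma it_nonneg {b : ℝ} (hb : 2 < b) (n : ℕ) : ∀ t, 0 ≤ it b n t := by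
  induction n with
  | zero => exact pot_nonneg hb
  | succ n ih =>
    intro t
    have := ih (b * t); have := ih (b * (t - 2)); have := ih (b * (t + 2))
    simp only [it]; linarith

lemma it_le {b : ℝ} (hb : 2 < b) (n : ℕ) : ∀ t, it b n t ≤ pot b t := by
  induction n with
  | zero => exact fun _ => le_rfl
  | succ n ih =>
    intro t
    have := ih (b * t); have := ih (b * (t - 2)); have := ih (b * (t + 2))
    have := step0 hb t
    simp only [it]; linarith

lemma ev_succ {p : ℕ → Prop} (h : ∀ᶠ n in atTop, p (n + 1)) : ∀ᶠ n in atTop, p n := by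
  obtain ⟨M, hM⟩ := eventually_atTop.1 h
  refine eventually_atTop.2 ⟨M + 1, fun n hn => ?_⟩
  obtain ⟨k, rfl⟩ : ∃ k, n = k + 1 := ⟨n - 1, by omega⟩
  exact hM k (by omega)

lemma it_geom {b : ℝ} (hb : 2 < b) {N : Set ℝ} (h0 : (0 : ℝ) ∉ N)
    (hN : ∀ t ∈ N, b * t ∈ N ∧ b * (t - 2) ∈ N ∧ b * (t + 2) ∈ N) (k : ℕ) :
    ∀ t ∈ N, ∀ᶠ n in atTop, it b n t ≤ ((b + 6) / (2 * (b + 2))) ^ k * pot b t := by
  have hb0 : 0 < b := by linarith
  set θ := (b + 6) / (2 * (b + 2)) with hθ
  have hθ0 : 0 ≤ θ := by positivity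
  induction k with
  | zero => exact fun t _ => Eventually.of_forall fun n => by simpa using it_le hb n t
  | succ k ih =>
    have big : ∀ t ∈ N, 2 * b - 4 ≤ b * |t| → ∀ᶠ n in atTop, it b n t ≤ θ ^ (k + 1) * pot b t := by
      intro t ht h
      obtain ⟨a1, a2, a3⟩ := hN t ht
      refine ev_succ ?_
      filter_upwards [ih _ a1, ih _ a2, ih _ a3] with n b1 b2 b3
      have := mul_le_mul_of_nonneg_left (step1 hb h) (pow_nonneg hθ0 k)
      rw [← hθ] at this
      simp only [it]
      rw [pow_succ]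
      nlinarith
    have all : ∀ r : ℕ, ∀ t ∈ N, 2 ≤ b ^ r * |t| →
        ∀ᶠ n in atTop, it b n t ≤ θ ^ (k + 1) * pot b t := by
      intro r
      induction r with
      | zero =>
        intro t ht h
        rw [pow_zero, one_mul] at h
        exact big t ht (by nlinarith)
      | succ r ihr =>
        intro t ht h
        by_cases hc : 2 * b - 4 ≤ b * |t|
        · exact big t ht hc
        have hc' := not_le.1 hc
        have a1 := abs_sub_abs_le_abs_sub 2 t
        have a2 := abs_sub_abs_le_abs_add 2 t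
        rw [abs_two, abs_sub_comm] at a1
        rw [abs_two, add_comm] at a2
        have d2 : pot b (b * (t - 2)) = 0 :=
          pot_dead b (by rw [abs_mul, abs_of_pos hb0]; nlinarith)
        have d3 : pot b (b * (t + 2)) = 0 :=
          pot_dead b (by rw [abs_mul, abs_of_pos hb0]; nlinarith)
        have s0 := step0 hb t
        rw [d2, d3] at s0
        refine ev_succ ?_
        filter_upwards [ihr _ (hN t ht).1 (by
          rw [abs_mul, abs_of_pos hb0, ← mul_assoc, ← pow_succ]; exact h)] with n b1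
        have c2 := it_le hb n (b * (t - 2))
        have c3 := it_le hb n (b * (t + 2))
        have := mul_le_mul_of_nonneg_left (show pot b (b * t) ≤ pot b t by linarith)
          (pow_nonneg hθ0 (k + 1))
        simp only [it]
        linarith
    intro t ht
    have ht0 : 0 < |t| := abs_pos.2 fun e => h0 (e ▸ ht)
    obtain ⟨r, hr⟩ := pow_unbounded_of_one_lt (2 / |t|) (by linarith : 1 < b)
    exact all r t ht ((div_lt_iff₀ ht0).1 hr).le

/-- On an invariant set that avoids `0` the iterates tend to zero. -/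
theorem it_small {b : ℝ} (hb : 2 < b) {N : Set ℝ} (h0 : (0 : ℝ) ∉ N)
    (hN : ∀ t ∈ N, b * t ∈ N ∧ b * (t - 2) ∈ N ∧ b * (t + 2) ∈ N) {t : ℝ} (ht : t ∈ N) {ε : ℝ}
    (hε : 0 < ε) : ∀ᶠ n in atTop, it b n t ≤ ε := by
  have h1 : (b + 6) / (2 * (b + 2)) < 1 := by
    rw [div_lt_one (by linarith)]; linarith
  have h2 := (tendsto_pow_atTop_nhds_zero_of_lt_one (by positivity) h1).mul_const (pot b t)
  rw [zero_mul] at h2
  obtain ⟨k, hk⟩ := (h2.eventually_le_const hε).exists
  filter_upwards [it_geom hb h0 hN k t ht] with n hn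
  exact hn.trans hk

end Pool.Agent.Lib.MP_e0da8e_an.TR
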