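import Pool.Agent.Lib.MP_e0da8e_an.TR.Peel

/-! Asymptotic diagonalization of one component on the functions of a fixed finite level. -/

namespace Pool.Agent.Lib.MP_e0da8e_an.TR

open Real Finset Filter

/-- No nontrivial integer relation with the admissible digits. -/
def NoRel (ρ : ℝ) (j p : ℕ) : Prop :=
  ∀ (n : ℕ) (q : ℕ → ℤ), (∀ l < n, |q l| ≤ (dg j p l + 1 : ℕ)) → (∃ l < n, q l ≠ 0) →
    ∑ l ∈ range n, (q l : ℝ) * om ρ l ≠ 0

/-- Weights that are constant from level `h` on. -/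
structure Head (j p h : ℕ) where
  φ : ℕ → BF
  α : ℕ → ℝ
  β : ℕ → ℝ
  wt : ∀ l, Wt (φ l) (dg j p l) (α l) (β l)
  tl : ∀ l, h ≤ l → (∀ x, φ l x = 2) ∧ α l = 1 ∧ β l = 1

/-- Squared norm of the coefficients up to level `B`. -/
noncomputable def nrm (B : ℕ) (z : Finset ℕ → ℝ) : ℝ := ∑ S ∈ (range B).powerset, z S ^ 2

lemma nrm_nonneg (B : ℕ) (z : Finset ℕ → ℝ) : 0 ≤ nrm B z := sum_nonneg fun _ _ => sq_nonneg _

lemma nrm_mono {a B : ℕ} (h : a ≤ B) (z : Finset ℕ → ℝ) : nrm a z ≤ nrm B z :=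
  sum_le_sum_of_subset_of_nonneg (powerset_mono.2 (range_subset_range.2 h)) fun _ _ _ => sq_nonneg _

namespace Head

variable {j p h : ℕ} (H : Head j p h)

/-- The density up to level `a`. -/
noncomputable def W (ω : ℕ → ℝ) (a : ℕ) : BF := ∏ l ∈ range a, scale (ω l) (H.φ l)

/-- The eigenvalue on the Walsh function `S`. -/
noncomputable def c (S : Finset ℕ) : ℝ := ∏ l ∈ range h, if l ∈ S then H.β l else H.α l

/-- The diagonal form up to level `a`. -/
noncomputable def dia (a : ℕ) (z : Finset ℕ → ℝ) : ℝ :=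
  ∑ S ∈ (range a).powerset, H.c S * z S ^ 2

lemma W_nonneg (ω : ℕ → ℝ) (a : ℕ) (x : ℝ) : 0 ≤ H.W ω a x := by
  rw [W, bf_prod]
  exact prod_nonneg fun l _ => (H.wt l).nonneg _

lemma c_nonneg (S : Finset ℕ) : 0 ≤ H.c S := by
  refine prod_nonneg fun l _ => ?_
  split_ifs
  · exact (H.wt l).β_nonneg
  · exact (H.wt l).α_nonneg

lemma dia_nonneg (a : ℕ) (z : Finset ℕ → ℝ) : 0 ≤ H.dia a z :=
  sum_nonneg fun S _ => mul_nonneg (H.c_nonneg S) (sq_nonneg _)

lemma dia_mono {a B : ℕ} (hB : a ≤ B) (z : Finset ℕ → ℝ) : H.dia a z ≤ H.dia B z :=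
  sum_le_sum_of_subset_of_nonneg (powerset_mono.2 (range_subset_range.2 hB))
    fun S _ _ => mul_nonneg (H.c_nonneg S) (sq_nonneg _)

lemma W_add (ω : ℕ → ℝ) {a : ℕ} (ha : h ≤ a) (k : ℕ) (x : ℝ) :
    H.W ω (a + k) x = 2 ^ k * H.W ω a x := by
  induction k with
  | zero => simp
  | succ k ih =>
    rw [← add_assoc, W, prod_range_succ, bf_mul, ← W, ih, scale_apply,
      (H.tl (a + k) (by omega)).1]
    ring

lemma W_le (ω : ℕ → ℝ) {m : ℕ} (hm : h ≤ m) (x : ℝ) : H.W ω m x ≤ 2 ^ m * ‖H.W ω h‖ := by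
  obtain ⟨k, rfl⟩ := Nat.exists_eq_add_of_le hm
  rw [H.W_add ω le_rfl]
  exact mul_le_mul (pow_le_pow_right₀ one_le_two (by omega))
    ((le_abs_self _).trans ((H.W ω h).norm_coe_le_norm x)) (H.W_nonneg _ _ _) (by positivity)

lemma c_eq {a : ℕ} (ha : h ≤ a) (S : Finset ℕ) :
    (∏ l ∈ range a, if l ∈ S then H.β l else H.α l) = H.c S := by
  refine (prod_subset (range_subset_range.2 ha) fun l _ hl => ?_).symm
  obtain ⟨-, h2, h3⟩ := H.tl l (by simpa using hl)
  rw [h2, h3, ite_self]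

lemma entry (ω : ℕ → ℝ) {a : ℕ} (ha : h ≤ a) {S S' : Finset ℕ} (hS : S ∈ (range a).powerset)
    (hS' : S' ∈ (range a).powerset) :
    H.W ω a * (vv ω a S * vv ω a S') - (if S = S' then H.c S else 0) • 1 ∈
      Sp (Far ω (fun l => dg j p l + 1) a) := by
  let g : ℕ → BF := fun l => H.φ l *
    ((if l ∈ S then Sn 1 else Cs 1) * (if l ∈ S' then Sn 1 else Cs 1))
  have e : H.W ω a * (vv ω a S * vv ω a S') = ∏ l ∈ range a, scale (ω l) (g l) := by
    rw [W, vv, vv, ← prod_mul_distrib, ← prod_mul_distrib]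
    refine prod_congr rfl fun l _ => ?_
    ext x
    simp only [g, bf_mul, scale_apply]
    split_ifs <;> simp
  have hg : ∀ l < a, g l ∈ TP (dg j p l + 1) := by
    intro l _
    refine TP_mul (H.wt l).mem ?_
    split_ifs
    · exact SS_mem
    · rw [mul_comm]; exact CS_mem
    · exact CS_mem
    · exact CC_mem
  have e2 : (if S = S' then H.c S else 0) = ∏ l ∈ range a, mean (g l) := by
    symm
    split_ifs with h'
    · subst h'
      rw [← H.c_eq ha]
      refine prod_congr rfl fun l _ => ?_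
      simp only [g]
      split_ifs
      · exact (H.wt l).ss
      · exact (H.wt l).cc
    · obtain ⟨l, hl⟩ : ∃ l, ¬ (l ∈ S ↔ l ∈ S') := by
        by_contra h2
        push Not at h2
        exact h' (Finset.ext h2)
      by_cases h1 : l ∈ S
      · have h2 : l ∉ S' := fun h2 => hl ⟨fun _ => h2, fun _ => h1⟩
        refine prod_eq_zero (mem_powerset.1 hS h1) ?_
        simp only [g, if_pos h1, if_neg h2]
        rw [mul_comm (Sn 1)]
        exact (H.wt l).cs
      · have h2 : l ∈ S' := by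
          by_contra h2
          exact hl ⟨fun h => absurd h h1, fun h => absurd h h2⟩
        refine prod_eq_zero (mem_powerset.1 hS' h2) ?_
        simp only [g, if_pos h2, if_neg h1]
        exact (H.wt l).cs
  rw [e, e2]
  exact prod_sub_mean ω _ g a hg

end Head

variable {ρ : ℝ}

/-- Rescaled nonzero admissible frequencies. -/
def Rem (ρ : ℝ) (j p : ℕ) : Set ℝ :=
  {t | ∃ n, t * om ρ n ∈ Far (om ρ) (fun l => dg j p l + 1) n}

lemma rem_step (h0 : 0 < ρ) {j p : ℕ} {t : ℝ} (ht : t ∈ Rem ρ j p) (δ : ℤ) (hδ : |δ| ≤ 1) :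
    ρ⁻¹ * (t + 2 * δ) ∈ Rem ρ j p := by
  obtain ⟨n, q, hq, ⟨l, hl, hl0⟩, e⟩ := ht
  refine ⟨n + 1, Function.update q n δ, fun i hi => ?_, ⟨l, by omega, ?_⟩, ?_⟩
  · by_cases h : i = n
    · subst h
      rw [Function.update_self]
      exact hδ.trans (by push_cast; omega)
    · rw [Function.update_of_ne h]; exact hq i (by omega)
  · rwa [Function.update_of_ne hl.ne]
  · rw [sum_range_succ, Function.update_self, sum_congr rfl fun i hi => by
      rw [Function.update_of_ne (mem_range.1 hi).ne], mul_add 2, ← e, om_succ]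
    field_simp

lemma far_small (h0 : 0 < ρ) (h1 : ρ < 1 / 2) {j p : ℕ} (hrel : NoRel ρ j p) (a : ℕ) {R : BF}
    (hR : R ∈ Sp (Far (om ρ) (fun l => dg j p l + 1) a)) : ∀ ε : ℝ, 0 < ε →
    ∀ᶠ k in atTop, ∀ᶠ T in atTop, ∀ P : Samp, P.L = lam ρ * om ρ (a + k) → 2 * π / P.h = T →
      ∀ B, a + k ≤ B → 2 ^ k * |P.E (R * CC (om ρ) a B)| ≤ ε := by
  have hb := inv_gt h0 h1
  refine Sp_induction (p := fun R => ∀ ε : ℝ, 0 < ε → ∀ᶠ k in atTop, ∀ᶠ T in atTop, ∀ P : Samp,
    P.L = lam ρ * om ρ (a + k) → 2 * π / P.h = T →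
      ∀ B, a + k ≤ B → 2 ^ k * |P.E (R * CC (om ρ) a B)| ≤ ε) ?_ ?_ ?_ ?_ hR
  · intro t ht c ε hε
    have hz : (0 : ℝ) ∉ Rem ρ j p := by
      rintro ⟨n, q, hq, hne, e⟩
      exact hrel n q hq hne (by linarith)
    have hm : t / om ρ a ∈ Rem ρ j p := ⟨a, by rwa [div_mul_cancel₀ _ (om_pos h0 a).ne']⟩
    filter_upwards [it_small hb hz (fun u hu => ⟨by simpa using rem_step h0 hu 0 (by simp),
      by simpa [sub_eq_add_neg] using rem_step h0 hu (-1) (by simp),
      by simpa using rem_step h0 hu 1 (by simp)⟩) hm (mul_pos (sub_pos.2 hb) hε)] with k hk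
    filter_upwards [eventually_ge_atTop (|t| + 4 * om ρ a)] with T hT P hL hP B hB
    have := (E_it h0 h1 P hB hL k a rfl t c (hP ▸ hT)).trans hk
    exact le_of_mul_le_mul_left this (sub_pos.2 hb)
  · intro ε hε
    exact Eventually.of_forall fun k => Eventually.of_forall fun T P _ _ B _ => by simpa using hε.le
  · intro F G hF hG ε hε
    filter_upwards [hF (ε / 2) (by positivity), hG (ε / 2) (by positivity)] with k a1 a2
    filter_upwards [a1, a2] with T b1 b2 P hL hP B hB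
    have c1 := b1 P hL hP B hB
    have c2 := b2 P hL hP B hB
    rw [add_mul, map_add]
    have := mul_le_mul_of_nonneg_left (abs_add_le (P.E (F * CC (om ρ) a B))
      (P.E (G * CC (om ρ) a B))) (by positivity : 0 ≤ (2 : ℝ) ^ k)
    linarith
  · intro r F hF ε hε
    have hr : 0 < |r| + 1 := by positivity
    filter_upwards [hF (ε / (|r| + 1)) (by positivity)] with k a1
    filter_upwards [a1] with T b1 P hL hP B hB
    have c1 := b1 P hL hP B hB
    rw [le_div_iff₀ hr] at c1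
    rw [smul_mul_assoc, map_smul, smul_eq_mul, abs_mul]
    have : 0 ≤ 2 ^ k * |P.E (F * CC (om ρ) a B)| := by positivity
    nlinarith

theorem scale_step (h0 : 0 < ρ) (h1 : ρ < 1 / 2) {j p h : ℕ} (hrel : NoRel ρ j p)
    (H : Head j p h) {a : ℕ} (ha : h ≤ a) {ε : ℝ} (hε : 0 < ε) :
    ∀ᶠ k in atTop, ∀ᶠ T in atTop, ∀ P : Samp, P.L = lam ρ * om ρ (a + k) → 2 * π / P.h = T →
      ∀ B, a + k ≤ B → ∀ z : Finset ℕ → ℝ,
        |P.E (H.W (om ρ) (a + k) * (AA (om ρ) a z ^ 2 * CC (om ρ) a B)) -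
          P.E (CC (om ρ) (a + k) B) * H.dia a z| ≤ ε * nrm a z := by
  set s := (range a).powerset with hs
  have hc : (0 : ℝ) < s.card := by
    exact_mod_cast card_pos.2 ⟨∅, empty_mem_powerset _⟩
  let R : Finset ℕ → Finset ℕ → BF := fun S S' =>
    H.W (om ρ) a * (vv (om ρ) a S * vv (om ρ) a S') - (if S = S' then H.c S else 0) • 1
  have h2 := (eventually_all_finset s).2 fun S hS => (eventually_all_finset s).2 fun S' hS' =>
    far_small h0 h1 hrel a (H.entry (om ρ) ha hS hS') (ε / s.card) (by positivity)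
  filter_upwards [h2] with k hk
  have h3 := (eventually_all_finset s).2 fun S hS => (eventually_all_finset s).2 fun S' hS' =>
    hk S hS S' hS'
  filter_upwards [h3, eventually_ge_atTop 2] with T hT hT2 P hL hP B hB z
  have e : H.W (om ρ) (a + k) * (AA (om ρ) a z ^ 2 * CC (om ρ) a B) =
      ∑ S ∈ s, ∑ S' ∈ s, (z S * z S' * 2 ^ k) • (R S S' * CC (om ρ) a B) +
        (H.dia a z * 2 ^ k) • CC (om ρ) a B := by
    have e1 : H.dia a z = ∑ S ∈ s, ∑ S' ∈ s, z S * z S' * (if S = S' then H.c S else 0) := by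
      refine sum_congr rfl fun S hS => ?_
      simp only [mul_ite, mul_zero]
      rw [sum_ite_eq, if_pos hS]
      ring
    ext x
    simp only [e1, bf_add, bf_sum, bf_smul, bf_mul, bf_sub, bf_one, R, H.W_add _ ha,
      AA_apply, ← hs, sq, sum_mul, mul_sum, ← sum_add_distrib]
    exact sum_congr rfl fun S _ => sum_congr rfl fun S' _ => by ring
  rw [e, map_add, map_smul, smul_eq_mul, mul_assoc, E_zero h0 h1 P hB hL (hP ▸ hT2) k a rfl,
    mul_comm (H.dia a z), add_sub_cancel_right, map_sum]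
  refine (abs_sum_le_sum_abs _ _).trans ?_
  have h4 : ∀ S ∈ s, |P.E (∑ S' ∈ s, (z S * z S' * 2 ^ k) • (R S S' * CC (om ρ) a B))| ≤
      ∑ S' ∈ s, ε / s.card * ((z S ^ 2 + z S' ^ 2) / 2) := by
    intro S hS
    rw [map_sum]
    refine (abs_sum_le_sum_abs _ _).trans (sum_le_sum fun S' hS' => ?_)
    rw [map_smul, smul_eq_mul, mul_assoc, abs_mul, abs_mul (2 ^ k : ℝ),
      abs_of_pos (by positivity : (0 : ℝ) < 2 ^ k), mul_comm]
    refine mul_le_mul (hT S hS S' hS' P hL hP B hB) ?_ (abs_nonneg _) (by positivity)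
    rw [abs_le]
    constructor <;> nlinarith [sq_nonneg (z S + z S'), sq_nonneg (z S - z S')]
  refine (sum_le_sum h4).trans (le_of_eq ?_)
  simp only [← mul_sum, ← sum_div, sum_add_distrib, sum_const, nsmul_eq_mul, nrm, ← hs]
  field_simp
  ring

end Pool.Agent.Lib.MP_e0da8e_an.TR
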