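import Pool.Agent.Lib.MP_e0da8e_an.TR.Lev
import Pool.Agent.Lib.MP_e0da8e_an.Final

/-! Passage to the limit and the Fourier frame. -/

namespace Pool.Agent.Lib.MP_e0da8e_an.TR

open MeasureTheory Finset Complex Filter Topology
open scoped ComplexConjugate InnerProductSpace

theorem core {ρ : ℝ} (h0 : 0 < ρ) (h1 : ρ < 1 / 2) (hrel : ∀ j p, NoRel ρ j p) :
    ∃ (A C : ℝ), 0 < A ∧ 0 < C ∧ ∃ (T : Set Ix) (X : Ix → ℝ), ∀ a : ℕ, ∃ s0 : Finset Ix,
      ↑s0 ⊆ T ∧ ∀ (z : Finset ℕ → ℝ),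
      (∀ S, ¬ S ⊆ range a → z S = 0) → ∀ F : Ix → ℝ,
      (∀ i, Tendsto (fun B => AA (om ρ) B z (X i)) atTop (𝓝 (F i))) →
      (∀ s : Finset Ix, ↑s ⊆ T →
        ∑ i ∈ s, F i ^ 2 ≤ C * ∑ S ∈ (range a).powerset, z S ^ 2) ∧
      A * ∑ S ∈ (range a).powerset, z S ^ 2 ≤ ∑ i ∈ s0, F i ^ 2 := by
  classical
  obtain ⟨n, A, C, D, hn, hA, hC, hD, I, X, h⟩ := level h0 h1 hrel
  simp only [nrm] at h
  choose Sel hSel hb using fun J => h (J + 1) (Nat.le_add_left 1 J)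
  let ε : ℕ → Ix → Bool := fun J i => decide (i ∈ Sel J)
  obtain ⟨e, φ, hφ, hlim⟩ := CompactSpace.tendsto_subseq ε
  have hev : ∀ i, ∀ᶠ m in atTop, (i ∈ Sel (φ m) ↔ e i = true) := by
    intro i
    have h1 := (tendsto_pi_nhds.1 hlim i).eventually
      ((isOpen_discrete {e i}).mem_nhds (Set.mem_singleton _))
    filter_upwards [h1] with m hm
    have h2 : ε (φ m) i = e i := hm
    rw [← h2]
    simp [ε]
  have hφ' : Tendsto (fun m => φ m + 1) atTop atTop :=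
    (tendsto_add_atTop_nat 1).comp hφ.tendsto_atTop
  have hB : Tendsto (fun m => n (φ m + 1)) atTop atTop := hn.tendsto_atTop.comp hφ'
  refine ⟨A, C, hA, hC, {i | e i = true}, X, fun a => ?_⟩
  obtain ⟨J1, hJ1⟩ := exists_pow_lt_of_lt_one (x := A / D) (by positivity)
    (by norm_num : (1 / 2 : ℝ) < 1)
  set J0 := max a J1 with hJ0
  refine ⟨((range J0).sigma I).filter (fun i => e i = true), fun i hi => (mem_filter.1 hi).2,
    fun z hz F hF => ⟨fun s hs => ?_, ?_⟩⟩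
  · have h1 : Tendsto (fun m => ∑ i ∈ s, AA (om ρ) (n (φ m + 1)) z (X i) ^ 2) atTop
        (𝓝 (∑ i ∈ s, F i ^ 2)) :=
      tendsto_finsetSum _ fun i _ => ((hF i).comp hB).pow 2
    refine le_of_tendsto h1 ?_
    filter_upwards [(eventually_all_finset s).2 fun i _ => hev i, hB.eventually_ge_atTop a]
      with m hm hm'
    rw [← sum_sq_level hm' z hz]
    refine le_trans ?_ (hb (φ m) z).1
    exact sum_le_sum_of_subset_of_nonneg (fun i hi => (hm i hi).2 (hs hi))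
      fun _ _ _ => sq_nonneg _
  · have h1 : Tendsto (fun m => ∑ i ∈ ((range J0).sigma I).filter (fun i => e i = true),
        AA (om ρ) (n (φ m + 1)) z (X i) ^ 2) atTop
        (𝓝 (∑ i ∈ ((range J0).sigma I).filter (fun i => e i = true), F i ^ 2)) :=
      tendsto_finsetSum _ fun i _ => ((hF i).comp hB).pow 2
    refine ge_of_tendsto h1 ?_
    filter_upwards [(eventually_all_finset ((range J0).sigma I)).2 fun i _ => hev i,
      hB.eventually_ge_atTop a, hφ'.eventually_ge_atTop J0] with m hm hm' hm''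
    have h2 := (hb (φ m) z).2 J0 hm'' fun S hS =>
      hz S fun h' => hS (h'.trans (range_subset_range.2 (le_max_left _ _)))
    have e1 : (Sel (φ m)).filter (fun i => i.1 < J0) =
        ((range J0).sigma I).filter (fun i => e i = true) := by
      ext i
      simp only [mem_filter]
      constructor
      · rintro ⟨h3, h4⟩
        have h5 : i ∈ (range J0).sigma I :=
          mem_sigma.2 ⟨mem_range.2 h4, (mem_sigma.1 (hSel _ h3)).2⟩
        exact ⟨h5, (hm i h5).1 h3⟩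
      · rintro ⟨h3, h4⟩
        exact ⟨(hm i h3).2 h4, mem_range.1 (mem_sigma.1 h3).1⟩
    rw [e1, sum_sq_level hm' z hz] at h2
    refine le_trans (mul_le_mul_of_nonneg_right ?_ (sum_nonneg fun S _ => sq_nonneg _)) h2
    have h6 : (1 / 2 : ℝ) ^ J0 ≤ (1 / 2) ^ J1 :=
      pow_le_pow_of_le_one (by norm_num) (by norm_num) (le_max_right _ _)
    rw [lt_div_iff₀ hD] at hJ1
    nlinarith

lemma frame_PP {ρ : ℝ} (h0 : 0 < ρ) (h1 : ρ < 1 / 2) {d : ℝ} (hd : 0 < d)
    (hrel : ∀ j p, NoRel ρ j p) :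
    ∃ (A C : ℝ), 0 < A ∧ 0 < C ∧ ∃ (T : Set Ix) (Y : Ix → ℝ),
      (∀ s : Finset Ix, ↑s ⊆ T → ∀ f : Lp ℂ 2 PP,
        ∑ i ∈ s, ‖⟪ex h0.le (by linarith) d (Y i), f⟫_ℂ‖ ^ 2 ≤ C * ‖f‖ ^ 2) ∧
      ∀ f : Lp ℂ 2 PP, ∃ s : Finset Ix, ↑s ⊆ T ∧
        A * ‖f‖ ^ 2 ≤ ∑ i ∈ s, ‖⟪ex h0.le (by linarith) d (Y i), f⟫_ℂ‖ ^ 2 := by
  have h1' : ρ < 1 := by linarith
  obtain ⟨A, C, hA, hC, T, X, hc⟩ := core h0 h1 hrel
  let Y : Ix → ℝ := fun i => X i / (Real.pi * d)
  have hY : ∀ i, Real.pi * Y i * d = X i := fun i => by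
    have := Real.pi_pos
    simp only [Y]; field_simp
  choose G hG1 hG2 using fun i S => coef_limit h0.le h1' d (Y i) S
  simp only [hY] at hG1
  have key : ∀ a, ∃ s0 : Finset Ix, ↑s0 ⊆ T ∧ ∀ z,
      (∀ s : Finset Ix, ↑s ⊆ T → ∑ i ∈ s, ‖⟪ex h0.le h1' d (Y i),
        ContinuousMap.toLp 2 PP ℂ (wp a z)⟫_ℂ‖ ^ 2 ≤
          C * ‖ContinuousMap.toLp 2 PP ℂ (wp a z)‖ ^ 2) ∧
      A * ‖ContinuousMap.toLp 2 PP ℂ (wp a z)‖ ^ 2 ≤ ∑ i ∈ s0, ‖⟪ex h0.le h1' d (Y i),
        ContinuousMap.toLp 2 PP ℂ (wp a z)⟫_ℂ‖ ^ 2 := by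
    intro a
    obtain ⟨s0, hs0, hb⟩ := hc a
    refine ⟨s0, hs0, fun z => ?_⟩
    have hreal : ∀ w : Finset ℕ → ℝ, (∀ s : Finset Ix, ↑s ⊆ T →
        ∑ i ∈ s, (∑ S ∈ (range a).powerset, w S * G i S) ^ 2 ≤
          C * ∑ S ∈ (range a).powerset, w S ^ 2) ∧
        A * ∑ S ∈ (range a).powerset, w S ^ 2 ≤
          ∑ i ∈ s0, (∑ S ∈ (range a).powerset, w S * G i S) ^ 2 := by
      intro w
      have h2 := hb (fun S => if S ⊆ range a then w S else 0) (fun S hS => if_neg hS)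
        (fun i => ∑ S ∈ (range a).powerset, w S * G i S) (fun i => by
          have h3 : Tendsto (fun B => ∑ S ∈ (range a).powerset,
              w S * vv (om ρ) B S (X i)) atTop
              (𝓝 (∑ S ∈ (range a).powerset, w S * G i S)) :=
            tendsto_finsetSum _ fun S _ => (hG1 i S).const_mul _
          refine h3.congr' ?_
          filter_upwards [eventually_ge_atTop a] with B hB
          rw [AA_apply, ← sum_subset (powerset_mono.2 (range_subset_range.2 hB))]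
          · exact sum_congr rfl fun S hS => by rw [if_pos (mem_powerset.1 hS)]
          · intro S _ hS
            rw [if_neg fun h => hS (mem_powerset.2 h), zero_mul])
      have e : ∑ S ∈ (range a).powerset, (if S ⊆ range a then w S else 0) ^ 2 =
          ∑ S ∈ (range a).powerset, w S ^ 2 :=
        sum_congr rfl fun S hS => by rw [if_pos (mem_powerset.1 hS)]
      rwa [e] at h2
    have hin : ∀ i, ‖⟪ex h0.le h1' d (Y i), ContinuousMap.toLp 2 PP ℂ (wp a z)⟫_ℂ‖ ^ 2 =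
        (∑ S ∈ (range a).powerset, (z S).re * G i S) ^ 2 +
          (∑ S ∈ (range a).powerset, (z S).im * G i S) ^ 2 := by
      intro i
      have e : ⟪ex h0.le h1' d (Y i), ContinuousMap.toLp 2 PP ℂ (wp a z)⟫_ℂ =
          ∑ S ∈ (range a).powerset, z S * G i S := by
        rw [wp, map_sum, inner_sum]
        refine sum_congr rfl fun S _ => ?_
        rw [map_smul, inner_smul_right, ex, ContinuousMap.inner_toLp, ← hG2]
        rfl
      rw [e, Complex.sq_norm, normSq_apply]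
      simp [sq]
    simp only [hin, norm_sq_wp, sum_add_distrib, mul_add]
    exact ⟨fun s hs => add_le_add ((hreal _).1 s hs) ((hreal _).1 s hs),
      add_le_add (hreal _).2 (hreal _).2⟩
  have hup : ∀ s : Finset Ix, ↑s ⊆ T → ∀ f : Lp ℂ 2 PP,
      ∑ i ∈ s, ‖⟪ex h0.le h1' d (Y i), f⟫_ℂ‖ ^ 2 ≤ C * ‖f‖ ^ 2 := by
    intro s hs
    refine upper_of_dense _ dense_wp_Lp s ?_
    rintro _ ⟨a, z, rfl⟩
    obtain ⟨s0, -, h⟩ := key a
    exact (h z).1 s hs
  refine ⟨A / 16, C, by positivity, hC, T, Y, hup, lower_of_dense _ T dense_wp_Lp hA hC hup ?_⟩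
  rintro _ ⟨a, z, rfl⟩
  obtain ⟨s0, hs0, h⟩ := key a
  exact ⟨s0, hs0, (h z).2⟩

theorem hasFrame_of_noRel {ρ : ℝ} (h0 : 0 < ρ) (h1 : ρ < 1 / 2) {d : ℝ} (hd : 0 < d)
    (hrel : ∀ j p, NoRel ρ j p) : HasFourierFrame (bernoulliConv ρ d) := by
  have h1' : ρ < 1 := by linarith
  obtain ⟨A, C, hA, hC, T, Y, hup, hlo⟩ := frame_PP h0 h1 hd hrel
  have hmp : MeasurePreserving (cod ρ d) PP (bernoulliConv ρ d) :=
    ⟨(cont_cod h0.le h1' d).measurable, rfl⟩
  refine ⟨Y '' T, min (A / C) C, C, (Set.to_countable T).image Y, by positivity,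
    min_le_right _ _, fun f => ?_⟩
  set g := Lp.compMeasurePreserving (cod ρ d) hmp f with hg
  have hn : ‖g‖ = ‖f‖ := Lp.norm_compMeasurePreserving f hmp
  have hc : ∀ t, fourierCoef (bernoulliConv ρ d) f t = ⟪ex h0.le h1' d t, g⟫_ℂ := by
    intro t
    have hm : AEStronglyMeasurable (fun x : ℝ => f x * conj (cexp (2 * Real.pi * I * t * x)))
        (PP.map (cod ρ d)) :=
      (Lp.aestronglyMeasurable f).mul (Continuous.aestronglyMeasurable (by fun_prop))
    have e := integral_map hmp.measurable.aemeasurable hm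
    refine Eq.trans e ?_
    rw [L2.inner_def]
    refine integral_congr_ae ?_
    filter_upwards [Lp.coeFn_compMeasurePreserving f hmp, ContinuousMap.coeFn_toLp (p := 2)
      (𝕜 := ℂ) PP ⟨fun ξ => cexp (2 * Real.pi * I * t * cod ρ d ξ), by
        have := cont_cod h0.le h1' d
        fun_prop⟩] with ξ e1 e2
    rw [hg, e1, ex, e2]
    simp
  have := set_frame T Y (fun t => ‖fourierCoef (bernoulliConv ρ d) f t‖ ^ 2) (fun t => sq_nonneg _)
    (a := A * ‖f‖ ^ 2) (c := C * ‖f‖ ^ 2) (C := C) hC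
    (fun s hs => by simpa only [hc, hn] using hup s hs g)
    (by simpa only [hc, hn] using hlo g) (fun t s hs ht => by
      have h2 := hup s hs (ex h0.le h1' d t)
      have h3 : ‖ex h0.le h1' d t‖ ^ 2 = 1 := by
        rw [← inner_self_eq_norm_sq (𝕜 := ℂ), inner_ex_self]; simp
      rw [sum_congr rfl (g := fun _ => (1 : ℝ)) fun i hi => by
        rw [ht i hi, inner_ex_self]; simp, h3] at h2
      simpa using h2)
  refine ⟨this.1, le_trans ?_ this.2.1, this.2.2⟩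
  exact (mul_le_mul_of_nonneg_right (min_le_left _ _) (sq_nonneg _)).trans (le_of_eq (by ring))

end Pool.Agent.Lib.MP_e0da8e_an.TR
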