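import Pool.Agent.Results.MP_e0da8e_an.CountableExceptions
import Pool.Agent.Lib.MP_e0da8e_an.Quad

/-! Consequences of the hand-in `CountableExceptions`, derived from its statement alone. -/

namespace Pool.Agent.Lib.MP_e0da8e_an.TR

open Finset Polynomial Filter MeasureTheory Pool.Agent.Results.MP_e0da8e_an

/-- Ratios whose reciprocal is not an algebraic integer. -/
theorem of_not_integral {ρ : ℝ} (h0 : 0 < ρ) (h1 : ρ < 1 / 2) (h : ¬ IsIntegral ℤ ρ⁻¹) {d : ℝ}
    (hd : 0 < d) : HasFourierFrame (bernoulliConv ρ d) :=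
  CountableExceptions.result ρ h0 h1 (fun P _ hP _ _ e => h ⟨P, hP, e⟩) d hd

/-- The ratio `2/5`. -/
theorem two_fifths {d : ℝ} (hd : 0 < d) : HasFourierFrame (bernoulliConv (2 / 5) d) := by
  refine of_not_integral (by norm_num) (by norm_num) (fun h => ?_) hd
  have e : ((2 / 5 : ℝ))⁻¹ = algebraMap ℚ ℝ (5 / 2) := by norm_num
  rw [e, isIntegral_algebraMap_iff (algebraMap ℚ ℝ).injective] at h
  obtain ⟨k, hk⟩ := IsIntegrallyClosed.isIntegral_iff.1 h
  have : (2 * k : ℤ) = 5 := by
    have h2 : (k : ℚ) = 5 / 2 := by simpa using hk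
    have h3 : (2 * k : ℚ) = 5 := by rw [h2]; norm_num
    exact_mod_cast h3
  omega

/-- The negated form of the posed question. -/
theorem not_Q1 : ∃ ρ : ℝ, 0 < ρ ∧ ρ < 1 / 2 ∧ (∀ k : ℕ, ρ ≠ 1 / (2 * k)) ∧
    ∀ d : ℝ, 0 < d → HasFourierFrame (bernoulliConv ρ d) := by
  refine ⟨2 / 5, by norm_num, by norm_num, fun k hk => ?_, fun d hd => two_fifths hd⟩
  have k0 : (k : ℝ) ≠ 0 := by rintro e; norm_num [e] at hk
  have : (4 * k : ℝ) = 5 := by field_simp at hk; linarith
  have : 4 * k = 5 := by exact_mod_cast this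
  omega

/-- All but countably many ratios. -/
theorem countable_exceptions :
    {ρ : ℝ | 0 < ρ ∧ ρ < 1 / 2 ∧ ¬ ∀ d, 0 < d → HasFourierFrame (bernoulliConv ρ d)}.Countable := by
  refine ((Algebraic.countable ℤ ℝ).image Inv.inv).mono ?_
  rintro ρ ⟨h0, h1, h⟩
  refine ⟨ρ⁻¹, ?_, inv_inv ρ⟩
  by_contra h2
  exact h fun d hd => of_not_integral h0 h1 (fun h3 => h2 h3.isAlgebraic) hd

/-- The statement of the earlier hand-in `AlmostEvery`. -/
theorem almost_every : ∀ᵐ ρ : ℝ, 0 < ρ → ρ < 1 / 5 → ∀ d, 0 < d →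
    HasFourierFrame (bernoulliConv ρ d) := by
  filter_upwards [countable_exceptions.ae_notMem volume] with ρ h h0 h1
  by_contra h2
  exact h ⟨h0, by linarith, h2⟩

/-- The frame part of the hand-in `Quadratic`. -/
theorem quadratic {N c : ℤ} (hc : 3 ≤ |c|) (hN : 2 * |c| < N) {ρ : ℝ}
    (hρ : ρ = 2 / (N + √(N ^ 2 - 4 * c))) {d : ℝ} (hd : 0 < d) :
    HasFourierFrame (bernoulliConv ρ d) := by
  obtain ⟨h0, h1, h2⟩ := quad_root hc hN hρ
  refine CountableExceptions.result ρ h0 (quad_frame hc h0 h1 h2).1 (fun P j hP a1 a2 e => ?_) d hd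
  set n := max P.natDegree j with hn
  obtain ⟨m, hm, hm'⟩ := ((lowSep_quad hc h0 h1 h2 (n - j) (P.coeff j).natAbs).and
    (eventually_ge_atTop j)).exists
  let q : ℕ → ℤ := fun l => if l ≤ n then P.coeff (n - l) else 0
  have hs : ∑ l ∈ range (n - j + 1 + m), (q l : ℝ) * ρ ^ (l + 1) = 0 := by
    rw [← sum_subset (range_subset_range.2 (show n + 1 ≤ n - j + 1 + m by omega)) fun l _ hl => by
      simp only [q, if_neg (show ¬ l ≤ n by simpa using hl)]; simp]
    rw [aeval_eq_sum_range' (show P.natDegree < n + 1 by omega), ← sum_range_reflect] at e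
    have e2 := congrArg (ρ ^ (n + 1) * ·) e
    simp only [mul_sum, mul_zero] at e2
    refine Eq.trans (sum_congr rfl fun l hl => ?_) e2
    have hl' := mem_range.1 hl
    obtain ⟨k, hk⟩ : ∃ k, n = k + l := ⟨n - l, by omega⟩
    simp only [q, if_pos (show l ≤ n by omega), show n + 1 - 1 - l = k by omega,
      show n - l = k by omega, zsmul_eq_mul]
    rw [hk, inv_pow]
    field_simp
    ring
  have := hm q (fun l _ => ?_) ⟨n - P.natDegree, by omega, ?_⟩
  · rw [hs, abs_zero] at this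
    linarith [pow_pos h0 (n - j + 1 + m + 1)]
  · simp only [q, dg]
    split_ifs with b1 b2 b3
    · simpa using a1 (n - l) (by omega)
    · rw [show n - l = j by omega]; push_cast; omega
    · simpa using a2 (n - l) (by omega)
    all_goals positivity
  · simp only [q, if_pos (Nat.sub_le _ _), show n - (n - P.natDegree) = P.natDegree by omega,
      hP.coeff_natDegree]
    exact one_ne_zero

end Pool.Agent.Lib.MP_e0da8e_an.TR
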