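import Pool.Agent.Lib.MP_e0da8e_an.TR.Piece

/-! Selection of frequencies at a finite level. -/

namespace Pool.Agent.Lib.MP_e0da8e_an.TR

open Real Finset

/-- Index type of the candidate frequencies. -/
abbrev Ix := Σ _ : ℕ, Σ _ : ℕ, ℤ

lemma sum_bound' {n : ℕ → ℕ} (hn : StrictMono n) (hj : ∀ j, j < n j) (S : Finset ℕ) (J : ℕ) :
    ∑ j ∈ range J, (if S ⊆ range (n (j + 1)) then cc j (pj j) (n j) S else 0) ≤ 6 := by
  have h1 : ∀ j ∈ range J, (if S ⊆ range (n (j + 1)) then cc j (pj j) (n j) S else 0) ≤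
      (1 / 2 : ℝ) ^ (top S - n j) * cc j (pj j) (n j) S +
        ((if top S ≤ n (j + 1) then 1 else 0) - (if top S ≤ n j then 1 else 0)) := by
    intro j _
    have c0 := cc_nonneg j (pj j) (n j) S
    have c1 := cc_le_one j (pj j) (n j) S
    have c2 : 0 ≤ (1 / 2 : ℝ) ^ (top S - n j) * cc j (pj j) (n j) S := by positivity
    have c3 := hn (Nat.lt_succ_self j)
    simp only [Nat.succ_eq_add_one] at c3
    by_cases h : top S ≤ n j
    · rw [Nat.sub_eq_zero_of_le h, if_pos h, if_pos (show top S ≤ n (j + 1) by omega)]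
      split_ifs <;> linarith
    · rw [if_neg h]
      by_cases h' : S ⊆ range (n (j + 1))
      · rw [if_pos h', if_pos (top_le (mem_powerset.2 h'))]; linarith
      · rw [if_neg h']; split_ifs <;> linarith
  refine (sum_le_sum h1).trans ?_
  rw [sum_add_distrib, sum_range_sub (fun j => if top S ≤ n j then (1 : ℝ) else 0)]
  have := sum_bound hn hj S J
  split_ifs <;> linarith

lemma sum_sub_pow {a B : ℕ} (h : a ≤ B) (f : Finset ℕ → ℝ) :
    ∑ S ∈ (range a).powerset, f S =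
      ∑ S ∈ (range B).powerset, if S ⊆ range a then f S else 0 := by
  rw [← sum_filter]
  refine sum_congr ?_ fun _ _ => rfl
  ext S
  simp only [mem_filter, mem_powerset]
  exact ⟨fun h1 => ⟨h1.trans (range_subset_range.2 h), h1⟩, fun h1 => h1.2⟩

theorem level {ρ : ℝ} (h0 : 0 < ρ) (h1 : ρ < 1 / 2) (hrel : ∀ j p, NoRel ρ j p) :
    ∃ (n : ℕ → ℕ) (A C D : ℝ), StrictMono n ∧ 0 < A ∧ 0 < C ∧ 0 < D ∧
    ∃ (I : ℕ → Finset (Σ _ : ℕ, ℤ)) (X : Ix → ℝ), ∀ J, 1 ≤ J →
      ∃ Sel ⊆ (range J).sigma I, ∀ z : Finset ℕ → ℝ,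
        ∑ i ∈ Sel, AA (om ρ) (n J) z (X i) ^ 2 ≤ C * nrm (n J) z ∧
        ∀ J0, J0 ≤ J → (∀ S, ¬ S ⊆ range J0 → z S = 0) →
          (2 * A - D * (1 / 2) ^ J0) * nrm (n J) z ≤
            ∑ i ∈ Sel.filter (fun i => i.1 < J0), AA (om ρ) (n J) z (X i) ^ 2 := by
  obtain ⟨γ, hγ0, hγ1, hγ⟩ := gamma_lower h0 h1
  set K : ℝ := 60000 / γ ^ 2 with hK
  have hK0 : 0 < K := by positivity
  have hp : ∀ j h : ℕ, ∃ n, h < n ∧ ∃ (I : Finset (Σ _ : ℕ, ℤ)) (x t : (Σ _ : ℕ, ℤ) → ℝ),
      (∀ k, 0 ≤ t k) ∧ (∀ k, t k ≤ 1) ∧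
      (∀ k ∈ I, cos (om ρ j * x k) ^ 2 ≤ 32 / γ * (1 / 2) ^ j) ∧ (j < h →
      ∀ B, n ≤ B → ∀ z : Finset ℕ → ℝ, ∑ k ∈ I, t k * AA (om ρ) B z (x k) ^ 2 ≤
        K * (2 * ∑ S ∈ (range n).powerset, cc j (pj j) h S * z S ^ 2 +
          γ / 16 * (1 / 4) ^ j * nrm B z) ∧
      K * (γ / 2 * ∑ S ∈ (range h).powerset, cc j (pj j) h S * z S ^ 2 -
        (γ / 16 * (1 / 4) ^ j + 2 / ((2 * pj j + 1) * (32 / γ * (1 / 2) ^ j))) * nrm B z) ≤
        ∑ k ∈ I, t k * AA (om ρ) B z (x k) ^ 2) := by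
    intro j h
    by_cases hj : j < h
    · obtain ⟨n, a1, I, x, t, a2, a3, a4, a5⟩ := piece h0 h1 (hrel j (pj j)) hγ0 hγ hj hK0.le
        (κ := 32 / γ * (1 / 2) ^ j) (η := γ / 16 * (1 / 4) ^ j) (by positivity) (by positivity)
      exact ⟨n, a1, I, x, t, a2, a3, a4, fun _ => a5⟩
    · exact ⟨h + 1, by omega, ∅, 0, 0, fun _ => le_rfl, fun _ => zero_le_one, by simp,
        fun h' => absurd h' hj⟩
  choose f hf I' x' t' ht0' ht1' hcos' hb' using hp
  let n : ℕ → ℕ := fun j => Nat.rec 1 f j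
  have en : ∀ j, n (j + 1) = f j (n j) := fun j => rfl
  have hn : StrictMono n := strictMono_nat_of_lt_succ fun j => by rw [en]; exact hf _ _
  have hj : ∀ j, j < n j := fun j => by
    induction j with
    | zero => exact Nat.one_pos
    | succ j ih => have := hn (Nat.lt_succ_self j); simp only [Nat.succ_eq_add_one] at this; omega
  let I := fun j => I' j (n j)
  let x := fun j => x' j (n j)
  let t := fun j => t' j (n j)
  have hb := fun j => hb' j (n j) (hj j)
  simp only [← en] at hb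
  refine ⟨n, K * γ / 16, 14 * K, 14 * K * (32 / γ), hn, by positivity, by positivity,
    by positivity, I, fun i => x i.1 i.2, fun J hJ => ?_⟩
  set B := n J with hB
  have hBj : ∀ j ∈ range J, n (j + 1) ≤ B := fun j h => hn.monotone (mem_range.1 h)
  let M : ℕ → ℝ := fun j => (√(32 / γ * (1 / 2) ^ j))⁻¹
  have hM : ∀ j, M j ^ 2 = (32 / γ * (1 / 2) ^ j)⁻¹ := fun j => by
    simp only [M]
    rw [inv_pow, sq_sqrt (by positivity)]
  let u : Ix → Finset ℕ → ℝ := fun i S => vv (om ρ) B S (x i.1 i.2)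
  let u' : Ix → Finset ℕ → ℝ := fun i S =>
    if i.1 ∈ S then 0 else M i.1 * vv (om ρ) B S (x i.1 i.2)
  have eu : ∀ (z : Finset ℕ → ℝ) i, ∑ S ∈ (range B).powerset, z S * u i S =
      AA (om ρ) B z (x i.1 i.2) := fun z i => (AA_apply _ _ _ _).symm
  have eu' : ∀ (z : Finset ℕ → ℝ) i, ∑ S ∈ (range B).powerset, z S * u' i S =
      M i.1 * AA (om ρ) B (fun S => if i.1 ∈ S then 0 else z S) (x i.1 i.2) := by
    intro z i
    rw [AA_apply, mul_sum]
    refine sum_congr rfl fun S _ => ?_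
    simp only [u']
    split_ifs <;> ring
  have geo : ∑ j ∈ range J, (1 / 2 : ℝ) ^ j ≤ 2 := sum_geometric_two_le J
  have q4 : ∀ j, (1 / 4 : ℝ) ^ j = (1 / 2) ^ j * (1 / 2) ^ j := fun j => by
    rw [← mul_pow]; norm_num
  have q5 : ∀ j, (1 / 4 : ℝ) ^ j ≤ (1 / 2) ^ j := fun j =>
    pow_le_pow_left₀ (by norm_num) (by norm_num) j
  have geo4 : ∑ j ∈ range J, (1 / 4 : ℝ) ^ j ≤ 2 := (sum_le_sum fun j _ => q5 j).trans geo
  have hup : ∀ z : Finset ℕ → ℝ,
      ∑ i ∈ (range J).sigma I, t i.1 i.2 * AA (om ρ) B z (x i.1 i.2) ^ 2 ≤ 13 * K * nrm B z := by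
    intro z
    have hN := nrm_nonneg B z
    rw [sum_sigma]
    refine (sum_le_sum fun j h => (hb j B (hBj j h) z).1).trans ?_
    rw [← mul_sum, sum_add_distrib, ← mul_sum, ← sum_mul, ← mul_sum,
      sum_congr rfl fun j h => sum_sub_pow (hBj j h) _, sum_comm]
    have : ∑ S ∈ (range B).powerset, ∑ j ∈ range J,
        (if S ⊆ range (n (j + 1)) then cc j (pj j) (n j) S * z S ^ 2 else 0) ≤ 6 * nrm B z := by
      rw [nrm, mul_sum]
      refine sum_le_sum fun S _ => ?_
      refine le_trans (le_of_eq ?_) (mul_le_mul_of_nonneg_right (sum_bound' hn hj S J)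
        (sq_nonneg (z S)))
      rw [sum_mul]
      exact sum_congr rfl fun j _ => by split_ifs <;> simp
    have h2 : γ / 16 * ∑ j ∈ range J, (1 / 4 : ℝ) ^ j ≤ 1 := by nlinarith
    have h3 := mul_le_mul_of_nonneg_right h2 hN
    rw [mul_comm 13, mul_assoc K]
    exact mul_le_mul_of_nonneg_left (by linarith) hK0.le
  have hup' : ∀ z : Finset ℕ → ℝ, ∑ i ∈ (range J).sigma I, t i.1 i.2 *
      (M i.1 * AA (om ρ) B (fun S => if i.1 ∈ S then 0 else z S) (x i.1 i.2)) ^ 2 ≤
      13 * K * nrm B z := by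
    intro z
    have hN := nrm_nonneg B z
    rw [sum_sigma]
    have h1 : ∀ j ∈ range J, ∑ k ∈ I j, t j k *
        (M j * AA (om ρ) B (fun S => if j ∈ S then 0 else z S) (x j k)) ^ 2 ≤
        (1 / 2) ^ j * (K * nrm B z) := by
      intro j h
      have h2 := (hb j B (hBj j h) (fun S => if j ∈ S then 0 else z S)).1
      have h3 : ∑ S ∈ (range (n (j + 1))).powerset,
          cc j (pj j) (n j) S * (if j ∈ S then 0 else z S) ^ 2 ≤ (1 / 4) ^ j * nrm B z := by
        refine le_trans ?_ (mul_le_mul_of_nonneg_left (nrm_mono (hBj j h) z) (by positivity))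
        rw [nrm, mul_sum]
        refine sum_le_sum fun S _ => ?_
        split_ifs with hS
        · simp; positivity
        · exact mul_le_mul_of_nonneg_right ((cc_notMem (hj j) hS).trans (alpha_le j)) (sq_nonneg _)
      have h4 : nrm B (fun S => if j ∈ S then 0 else z S) ≤ nrm B z :=
        sum_le_sum fun S _ => by beta_reduce; split_ifs <;> simp [sq_nonneg]
      have h7 : γ / 16 * (1 / 4) ^ j * nrm B (fun S => if j ∈ S then 0 else z S) ≤
          1 * (1 / 4) ^ j * nrm B z :=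
        mul_le_mul (mul_le_mul_of_nonneg_right (by linarith) (by positivity)) h4
          (nrm_nonneg _ _) (by positivity)
      have h5 : ∑ k ∈ I j, t j k *
          (M j * AA (om ρ) B (fun S => if j ∈ S then 0 else z S) (x j k)) ^ 2 = M j ^ 2 *
          ∑ k ∈ I j, t j k * AA (om ρ) B (fun S => if j ∈ S then 0 else z S) (x j k) ^ 2 := by
        rw [mul_sum]
        exact sum_congr rfl fun k _ => by ring
      have h6 := mul_le_mul_of_nonneg_left (h2.trans (mul_le_mul_of_nonneg_left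
        (show _ ≤ 3 * ((1 / 4) ^ j * nrm B z) by linarith) hK0.le)) (sq_nonneg (M j))
      rw [h5]
      refine h6.trans ?_
      have e : M j ^ 2 * (K * (3 * ((1 / 4) ^ j * nrm B z))) =
          3 * γ / 32 * ((1 / 2) ^ j * (K * nrm B z)) := by
        rw [hM, q4]; field_simp
      rw [e]
      exact mul_le_of_le_one_left (by positivity) (by linarith)
    refine (sum_le_sum h1).trans ?_
    rw [← sum_mul]
    nlinarith [mul_nonneg hK0.le hN]
  obtain ⟨Sel, hSel, hd⟩ := discrepancy_pair ((range J).sigma I) (range B).powerset u u'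
    (fun i => t i.1 i.2) (fun i => ht0' _ _ _) (fun i => ht1' _ _ _)
    (fun i _ => (sum_vv_sq (om ρ) B _).le) (fun i hi => by
      obtain ⟨h1, h2⟩ := mem_sigma.1 hi
      have h3 := sum_vv_sq_notMem (om ρ) (lt_of_lt_of_le ((Nat.lt_succ_self _).trans (hj (i.1 + 1)))
        (hBj _ h1)) (x i.1 i.2)
      have e : ∑ S ∈ (range B).powerset, u' i S ^ 2 = M i.1 ^ 2 * ∑ S ∈ (range B).powerset,
          (if i.1 ∈ S then 0 else vv (om ρ) B S (x i.1 i.2) ^ 2) := by
        rw [mul_sum]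
        refine sum_congr rfl fun S _ => ?_
        simp only [u']
        split_ifs <;> ring
      rw [e, h3, hM, inv_mul_le_iff₀ (by positivity), mul_one]
      exact hcos' _ _ _ h2)
    (K := 13 * K) (φ := γ / 1664) (by positivity) (by linarith)
    (fun z => by simpa only [eu, nrm] using hup z) (fun z => by simpa only [eu', nrm] using hup' z)
  refine ⟨Sel, hSel, fun z => ?_⟩
  obtain ⟨d1, d2⟩ := hd z
  simp only [eu, eu'] at d1 d2
  rw [← nrm] at d1 d2
  set N := nrm B z with hNd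
  have hN : 0 ≤ N := nrm_nonneg B z
  have herr : 8 * (γ / 1664) * (13 * K) + 2 / (γ / 1664) ≤ K * γ / 8 := by
    have e : 8 * (γ / 1664) * (13 * K) + 2 / (γ / 1664) = K * γ / 8 - 422 / γ := by
      rw [hK]; field_simp; norm_num
    rw [e]
    have : 0 < 422 / γ := by positivity
    linarith
  have herr' := mul_le_mul_of_nonneg_right herr hN
  have hKγ : K * γ / 8 * N ≤ K * N :=
    mul_le_mul_of_nonneg_right (by nlinarith) hN
  rw [abs_le] at d1 d2
  refine ⟨by linarith [hup z, d1.2], fun J0 hJ0 hz => ?_⟩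
  have hlo : K * γ / 4 * N ≤
      ∑ i ∈ (range J).sigma I, t i.1 i.2 * AA (om ρ) B z (x i.1 i.2) ^ 2 := by
    rw [sum_sigma]
    refine le_trans ?_ (sum_le_sum fun j h => (hb j B (hBj j h) z).2)
    rw [← mul_sum, sum_sub_distrib, ← mul_sum, ← sum_mul]
    have h1 := sum_lower hn hj hJ z fun S hS =>
      hz S fun h => hS (h.trans (range_subset_range.2 hJ0))
    have h2 : ∑ j ∈ range J, (γ / 16 * (1 / 4 : ℝ) ^ j +
        2 / ((2 * pj j + 1) * (32 / γ * (1 / 2) ^ j))) ≤ γ / 4 := by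
      have h4 : ∀ j ∈ range J, γ / 16 * (1 / 4 : ℝ) ^ j +
          2 / ((2 * pj j + 1) * (32 / γ * (1 / 2) ^ j)) ≤ γ / 8 * (1 / 2) ^ j := by
        intro j _
        have e : (2 : ℝ) / ((2 * pj j + 1) * (32 / γ * (1 / 2) ^ j)) =
            1 / (2 * pj j + 1) * (γ / 16 / (1 / 2) ^ j) := by field_simp; norm_num
        have e2 : (1 / 4 : ℝ) ^ j * (γ / 16 / (1 / 2) ^ j) = γ / 16 * (1 / 2) ^ j := by
          rw [q4]; field_simp
        have h5 := mul_le_mul_of_nonneg_right (alpha_le j)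
          (by positivity : 0 ≤ γ / 16 / (1 / 2) ^ j)
        have h6 := mul_le_mul_of_nonneg_left (q5 j) (by positivity : 0 ≤ γ / 16)
        rw [e]
        linarith
      refine (sum_le_sum h4).trans ?_
      rw [← mul_sum]
      nlinarith
    have h3 := mul_le_mul_of_nonneg_right h2 hN
    rw [← hB, ← nrm, ← hNd] at h1
    have h4 := mul_le_mul_of_nonneg_left h1 (by positivity : 0 ≤ γ / 2)
    rw [← hNd, mul_div_assoc, mul_assoc]
    exact mul_le_mul_of_nonneg_left (by linarith) hK0.le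
  have htail : ∑ i ∈ Sel.filter (fun i => ¬ i.1 < J0), AA (om ρ) B z (x i.1 i.2) ^ 2 ≤
      (32 / γ * (1 / 2) ^ J0) * ∑ i ∈ Sel,
        (M i.1 * AA (om ρ) B (fun S => if i.1 ∈ S then 0 else z S) (x i.1 i.2)) ^ 2 := by
    rw [sum_filter, mul_sum]
    refine sum_le_sum fun i _ => ?_
    split_ifs with h
    · positivity
    · have e : (fun S => if i.1 ∈ S then 0 else z S) = z := by
        funext S
        split_ifs with hS
        · exact (hz S fun h' => h (mem_range.1 (h' hS))).symm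
        · rfl
      rw [e, mul_pow, hM, ← mul_assoc]
      refine le_mul_of_one_le_left (sq_nonneg _) ?_
      rw [le_mul_inv_iff₀ (by positivity), one_mul]
      exact mul_le_mul_of_nonneg_left
        (pow_le_pow_of_le_one (by norm_num) (by norm_num) (not_lt.1 h)) (by positivity)
  have h4 := sum_filter_add_sum_filter_not Sel (fun i => i.1 < J0)
    (fun i => AA (om ρ) B z (x i.1 i.2) ^ 2)
  have h5 : ∑ i ∈ Sel,
      (M i.1 * AA (om ρ) B (fun S => if i.1 ∈ S then 0 else z S) (x i.1 i.2)) ^ 2 ≤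
      14 * K * N := by linarith [hup' z, d2.2]
  have h6 := mul_le_mul_of_nonneg_left h5 (by positivity : (0 : ℝ) ≤ 32 / γ * (1 / 2) ^ J0)
  linarith [d1.1]

end Pool.Agent.Lib.MP_e0da8e_an.TR
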