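import Pool.Agent.Lib.MP_e0da8e_an.Level
import Pool.Agent.Lib.MP_e0da8e_an.TR.Dyn

/-! Averages of a cosine against the product of the squared cosines of the lower levels. -/

namespace Pool.Agent.Lib.MP_e0da8e_an.TR

open Real Finset Filter

/-- The frequencies. -/
noncomputable def om (ρ : ℝ) (l : ℕ) : ℝ := ρ ^ (l + 1)

/-- Relative half-width of the window. -/
noncomputable def lam (ρ : ℝ) : ℝ := 4 - 2 / (1 - ρ)

/-- Product of the squared cosines over the levels `a ≤ l < B`. -/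
noncomputable def CC (ω : ℕ → ℝ) (a B : ℕ) : BF := ∏ l ∈ Ico a B, (Cs (ω l) * Cs (ω l))

lemma CC_apply (ω : ℕ → ℝ) (a B : ℕ) (x : ℝ) :
    CC ω a B x = ∏ l ∈ Ico a B, cos (ω l * x) ^ 2 := by
  rw [CC, bf_prod]
  exact prod_congr rfl fun l _ => by simp [bf_mul, sq]

lemma CC_nonneg (ω : ℕ → ℝ) (a B : ℕ) (x : ℝ) : 0 ≤ CC ω a B x := by
  rw [CC_apply]; exact prod_nonneg fun l _ => sq_nonneg _

lemma CC_le_one (ω : ℕ → ℝ) (a B : ℕ) (x : ℝ) : CC ω a B x ≤ 1 := by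
  rw [CC_apply]; exact prod_le_one (fun l _ => sq_nonneg _) fun l _ => cos_sq_le_one _

lemma CC_empty (ω : ℕ → ℝ) {a B : ℕ} (h : B ≤ a) : CC ω a B = 1 := by
  rw [CC, Ico_eq_empty_of_le h, prod_empty]

lemma peel (ω : ℕ → ℝ) {a B : ℕ} (h : a < B) (s c : ℝ) : cosF s c * CC ω a B =
    (1 / 2 : ℝ) • (cosF s c * CC ω (a + 1) B) +
      (1 / 4 : ℝ) • (cosF (s - 2 * ω a) c * CC ω (a + 1) B) +
      (1 / 4 : ℝ) • (cosF (s + 2 * ω a) c * CC ω (a + 1) B) := by
  rw [CC, prod_eq_prod_Ico_succ_bot h, ← CC]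
  ext x
  have e1 : (s - 2 * ω a) * x + c = (s * x + c) - 2 * (ω a * x) := by ring
  have e2 : (s + 2 * ω a) * x + c = (s * x + c) + 2 * (ω a * x) := by ring
  simp only [bf_mul, bf_add, bf_smul, cosF_apply, Cs_apply]
  rw [e1, e2, cos_sub (s * x + c), cos_add (s * x + c), cos_two_mul]
  ring

lemma cosF_zero : cosF 0 0 = 1 := by ext x; simp

lemma E_abs_le (P : Samp) (ω : ℕ → ℝ) (s c : ℝ) (a B : ℕ) : |P.E (cosF s c * CC ω a B)| ≤ 1 := by
  have h : ∀ x, |(cosF s c * CC ω a B) x| ≤ 1 := fun x => by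
    rw [bf_mul, abs_mul, abs_of_nonneg (CC_nonneg ω a B x)]
    exact mul_le_one₀ (abs_cos_le_one _) (CC_nonneg ω a B x) (CC_le_one ω a B x)
  have h1 := P.E_mono (G := 1) fun x => (abs_le.1 (h x)).2
  have h2 := P.E_mono (F := (-1 : ℝ) • 1) (G := cosF s c * CC ω a B) fun x => by
    simpa [bf_smul, bf_one] using (abs_le.1 (h x)).1
  rw [map_smul] at h2
  rw [P.E_one] at h1 h2
  exact abs_le.2 ⟨by simpa using h2, h1⟩

lemma E_CC_le (P : Samp) (ω : ℕ → ℝ) (a B : ℕ) : P.E (CC ω a B) ≤ 1 := by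
  have := P.E_mono (G := 1) (CC_le_one ω a B)
  rwa [P.E_one] at this

variable {ρ : ℝ}

lemma om_pos (h0 : 0 < ρ) (l : ℕ) : 0 < om ρ l := pow_pos h0 _

lemma om_succ (ρ : ℝ) (l : ℕ) : om ρ (l + 1) = ρ * om ρ l := by simp only [om]; ring

lemma om_half (h0 : 0 < ρ) (h1 : ρ < 1 / 2) (l : ℕ) : 2 * om ρ (l + 1) ≤ om ρ l := by
  have := om_pos h0 l
  rw [om_succ]; nlinarith

lemma om_anti (h0 : 0 < ρ) (h1 : ρ < 1 / 2) {a m : ℕ} (h : a ≤ m) : om ρ m ≤ om ρ a :=
  pow_le_pow_of_le_one h0.le (by linarith) (by omega)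

lemma om_le (h0 : 0 < ρ) (h1 : ρ < 1 / 2) (a : ℕ) : om ρ a ≤ 1 / 2 :=
  (om_anti h0 h1 (Nat.zero_le a)).trans (by simpa [om] using h1.le)

lemma lam_pos (h1 : ρ < 1 / 2) : 0 < lam ρ := by
  rw [lam, sub_pos, div_lt_iff₀ (by linarith)]; linarith

lemma lam_le (h0 : 0 < ρ) (h1 : ρ < 1 / 2) : lam ρ ≤ 2 := by
  have : 2 ≤ 2 / (1 - ρ) := by rw [le_div_iff₀ (by linarith)]; linarith
  rw [lam]; linarith

lemma inv_gt (h0 : 0 < ρ) (h1 : ρ < 1 / 2) : 2 < ρ⁻¹ := by
  rw [lt_inv_comm₀ (by norm_num) h0]; linarith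

lemma CC_spec (h0 : 0 < ρ) (h1 : ρ < 1 / 2) (a B : ℕ) :
    CC (om ρ) a B ∈ Sp (Set.Icc (-(2 / (1 - ρ) * om ρ a)) (2 / (1 - ρ) * om ρ a)) := by
  have hD : 0 < 2 / (1 - ρ) := div_pos two_pos (by linarith)
  have key : ∀ k, CC (om ρ) a (a + k) ∈ Sp (Set.Icc (-(2 / (1 - ρ) * (om ρ a - om ρ (a + k))))
      (2 / (1 - ρ) * (om ρ a - om ρ (a + k)))) := by
    intro k
    induction k with
    | zero => rw [CC_empty _ (by omega)]; exact one_mem_Sp (by simp)
    | succ k ih =>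
      rw [← add_assoc, CC, prod_Ico_succ_top (Nat.le_add_right a k), ← CC, mul_comm (CC _ _ _),
        mul_assoc]
      have hp := (om_pos h0 (a + k)).le
      refine cosF_mul_mem 0 hp ?_ (cosF_mul_mem 0 hp le_rfl ih)
      rw [om_succ]
      have : 2 / (1 - ρ) * (1 - ρ) = 2 := div_mul_cancel₀ _ (by linarith)
      nlinarith
  rcases le_total B a with h | h
  · rw [CC_empty _ h]
    have := mul_pos hD (om_pos h0 a)
    exact one_mem_Sp ⟨by linarith, this.le⟩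
  · obtain ⟨k, rfl⟩ := Nat.exists_eq_add_of_le h
    have := mul_pos hD (om_pos h0 (a + k))
    exact Sp_mono (Set.Icc_subset_Icc (by linarith) (by linarith)) (key k)

lemma E_dead (h0 : 0 < ρ) (h1 : ρ < 1 / 2) (P : Samp) {a : ℕ} (hL : P.L ≤ lam ρ * om ρ a) {s : ℝ}
    (hs : 4 * om ρ a ≤ |s|) (hT : |s| + 4 * om ρ a ≤ 2 * π / P.h) (c : ℝ) (B : ℕ) :
    P.E (cosF s c * CC (om ρ) a B) = 0 := by
  refine P.E_far (fun t ht => ht) (mul_mem_Sp (Ω := {s})
    (Ω'' := {t | P.L ≤ |t| ∧ |t| + P.L ≤ 2 * π / P.h}) ?_ (cosF_mem (Set.mem_singleton s) c)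
    (CC_spec h0 h1 a B))
  intro t ht t' ht'
  rw [Set.mem_singleton_iff.1 ht]
  have h4 : |t'| ≤ 2 / (1 - ρ) * om ρ a := abs_le.2 ht'
  have h5 := abs_add_le s t'
  have h6 := abs_sub s t'
  have h7 := abs_sub_abs_le_abs_add s t'
  have h8 := abs_sub_abs_le_abs_sub s t'
  rw [lam, sub_mul] at hL
  exact ⟨⟨by linarith, by linarith⟩, ⟨by linarith, by linarith⟩⟩

lemma E_it (h0 : 0 < ρ) (h1 : ρ < 1 / 2) (P : Samp) {m B : ℕ} (hB : m ≤ B)
    (hL : P.L = lam ρ * om ρ m) (k : ℕ) : ∀ a, a + k = m → ∀ s c : ℝ,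
    |s| + 4 * om ρ a ≤ 2 * π / P.h →
    (ρ⁻¹ - 2) * (2 ^ k * |P.E (cosF s c * CC (om ρ) a B)|) ≤ it ρ⁻¹ k (s / om ρ a) := by
  have hb := inv_gt h0 h1
  induction k with
  | zero =>
    intro a ha s c hT
    obtain rfl : a = m := ha
    have hp := om_pos h0 a
    simp only [it, pot, pow_zero, one_mul]
    split_ifs with h
    · have := E_abs_le P (om ρ) s c a B
      nlinarith
    · rw [abs_div, abs_of_pos hp, div_le_iff₀ hp, not_le] at h
      rw [E_dead h0 h1 P hL.le h.le hT]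
      simp
  | succ k ih =>
    intro a ha s c hT
    have hp := om_pos h0 a
    have hh := om_half h0 h1 a
    have a1 := abs_sub s (2 * om ρ a)
    have a2 := abs_add_le s (2 * om ρ a)
    rw [abs_of_pos (by linarith : 0 < 2 * om ρ a)] at a1 a2
    have i1 := ih (a + 1) (by omega) s c (by linarith)
    have i2 := ih (a + 1) (by omega) (s - 2 * om ρ a) c (by linarith)
    have i3 := ih (a + 1) (by omega) (s + 2 * om ρ a) c (by linarith)
    have e1 : s / om ρ (a + 1) = ρ⁻¹ * (s / om ρ a) := by rw [om_succ]; field_simp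
    have e2 : (s - 2 * om ρ a) / om ρ (a + 1) = ρ⁻¹ * (s / om ρ a - 2) := by
      rw [om_succ]; field_simp
    have e3 : (s + 2 * om ρ a) / om ρ (a + 1) = ρ⁻¹ * (s / om ρ a + 2) := by
      rw [om_succ]; field_simp
    rw [e1] at i1; rw [e2] at i2; rw [e3] at i3
    rw [peel _ (by omega : a < B), map_add, map_add, map_smul, map_smul, map_smul]
    simp only [it, smul_eq_mul]
    set u := P.E (cosF s c * CC (om ρ) (a + 1) B)
    set v := P.E (cosF (s - 2 * om ρ a) c * CC (om ρ) (a + 1) B)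
    set w := P.E (cosF (s + 2 * om ρ a) c * CC (om ρ) (a + 1) B)
    have h3 : |1 / 2 * u + 1 / 4 * v + 1 / 4 * w| ≤ 1 / 2 * |u| + 1 / 4 * |v| + 1 / 4 * |w| := by
      rw [abs_le]
      constructor <;> linarith [le_abs_self u, le_abs_self v, le_abs_self w, neg_abs_le u,
        neg_abs_le v, neg_abs_le w]
    have h4 := mul_le_mul_of_nonneg_left h3
      (by positivity : 0 ≤ (2 : ℝ) ^ (k + 1))
    have h5 := mul_le_mul_of_nonneg_left h4 (by linarith : 0 ≤ ρ⁻¹ - 2)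
    refine h5.trans ?_
    rw [pow_succ]
    nlinarith

lemma E_zero (h0 : 0 < ρ) (h1 : ρ < 1 / 2) (P : Samp) {m B : ℕ} (hB : m ≤ B)
    (hL : P.L = lam ρ * om ρ m) (hT : 2 ≤ 2 * π / P.h) (k : ℕ) : ∀ a, a + k = m →
    2 ^ k * P.E (CC (om ρ) a B) = P.E (CC (om ρ) m B) := by
  induction k with
  | zero => intro a ha; obtain rfl : a = m := ha; simp
  | succ k ih =>
    intro a ha
    have hp := om_pos h0 a
    have hh := om_half h0 h1 a
    have h2 := om_le h0 h1 a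
    have hL' : P.L ≤ lam ρ * om ρ (a + 1) :=
      hL.le.trans (mul_le_mul_of_nonneg_left (om_anti h0 h1 (by omega)) (lam_pos h1).le)
    have e1 : |0 - 2 * om ρ a| = 2 * om ρ a := by rw [zero_sub, abs_neg, abs_of_pos (by linarith)]
    have e2 : |0 + 2 * om ρ a| = 2 * om ρ a := by rw [zero_add, abs_of_pos (by linarith)]
    have h3 := congrArg P.E (peel (om ρ) (by omega : a < B) 0 0)
    rw [map_add, map_add, map_smul, map_smul, map_smul,
      E_dead h0 h1 P hL' (s := 0 - 2 * om ρ a) (by rw [e1]; linarith) (by rw [e1]; linarith),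
      E_dead h0 h1 P hL' (s := 0 + 2 * om ρ a) (by rw [e2]; linarith) (by rw [e2]; linarith),
      cosF_zero, one_mul, one_mul] at h3
    rw [h3, ← ih (a + 1) (by omega), pow_succ]
    simp only [smul_eq_mul]
    ring

lemma E_pos (h0 : 0 < ρ) (h1 : ρ < 1 / 2) (P : Samp) {B : ℕ} (k : ℕ) : ∀ a, a + k = B →
    ∀ s : ℝ, |s| + 4 * om ρ a + P.L ≤ 2 * π / P.h → 0 ≤ P.E (cosF s 0 * CC (om ρ) a B) := by
  induction k with
  | zero =>
    intro a ha s hT
    have hp := om_pos h0 a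
    rw [CC_empty _ (by omega), mul_one, P.E_cosF 0 (by linarith), cos_zero, mul_one]
    exact le_max_right _ _
  | succ k ih =>
    intro a ha s hT
    have hp := om_pos h0 a
    have hh := om_half h0 h1 a
    have a1 := abs_sub s (2 * om ρ a)
    have a2 := abs_add_le s (2 * om ρ a)
    rw [abs_of_pos (by linarith : 0 < 2 * om ρ a)] at a1 a2
    have i1 := ih (a + 1) (by omega) s (by linarith)
    have i2 := ih (a + 1) (by omega) (s - 2 * om ρ a) (by linarith)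
    have i3 := ih (a + 1) (by omega) (s + 2 * om ρ a) (by linarith)
    rw [peel _ (by omega : a < B), map_add, map_add, map_smul, map_smul, map_smul]
    simp only [smul_eq_mul]
    linarith

lemma E_half (h0 : 0 < ρ) (h1 : ρ < 1 / 2) (P : Samp) (hT : 3 + P.L ≤ 2 * π / P.h) (a B : ℕ) :
    1 / 2 * P.E (CC (om ρ) (a + 1) B) ≤ P.E (CC (om ρ) a B) := by
  rcases lt_or_ge a B with h | h
  · have hp := om_pos h0 a
    have hh := om_half h0 h1 a
    have h2 := om_le h0 h1 a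
    have e1 : |0 - 2 * om ρ a| = 2 * om ρ a := by rw [zero_sub, abs_neg, abs_of_pos (by linarith)]
    have e2 : |0 + 2 * om ρ a| = 2 * om ρ a := by rw [zero_add, abs_of_pos (by linarith)]
    have i2 := E_pos h0 h1 P (B := B) (B - (a + 1)) (a + 1) (by omega) (0 - 2 * om ρ a)
      (by rw [e1]; linarith)
    have i3 := E_pos h0 h1 P (B := B) (B - (a + 1)) (a + 1) (by omega) (0 + 2 * om ρ a)
      (by rw [e2]; linarith)
    have h3 := congrArg P.E (peel (om ρ) h 0 0)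
    rw [map_add, map_add, map_smul, map_smul, map_smul, cosF_zero, one_mul, one_mul] at h3
    simp only [smul_eq_mul] at h3
    linarith
  · rw [CC_empty _ h, CC_empty _ (by omega), P.E_one]; norm_num

/-- Sum of the squared sines over the levels `a ≤ l < B`. -/
noncomputable def SS (ω : ℕ → ℝ) (a B : ℕ) : BF := ∑ l ∈ Ico a B, (Sn (ω l) * Sn (ω l))

lemma SS_apply (ω : ℕ → ℝ) (a B : ℕ) (x : ℝ) :
    SS ω a B x = ∑ l ∈ Ico a B, sin (ω l * x) ^ 2 := by
  rw [SS, bf_sum]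
  exact sum_congr rfl fun l _ => by simp [bf_mul, sq]

lemma one_sub_SS_le (ω : ℕ → ℝ) (a B : ℕ) (x : ℝ) : 1 - SS ω a B x ≤ CC ω a B x := by
  rw [SS_apply, CC_apply]
  induction Ico a B using Finset.induction_on with
  | empty => simp
  | insert l s hl ih =>
    rw [sum_insert hl, prod_insert hl, cos_sq']
    have h1 : ∏ l ∈ s, cos (ω l * x) ^ 2 ≤ 1 :=
      prod_le_one (fun l _ => sq_nonneg _) fun l _ => cos_sq_le_one _
    nlinarith [sq_nonneg (sin (ω l * x))]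

lemma E_SS (h0 : 0 < ρ) (h1 : ρ < 1 / 2) (P : Samp) {a : ℕ} (h : 2 * om ρ a ≤ P.L) (B : ℕ) :
    P.E (SS (om ρ) a B) ≤ 2 * om ρ a / P.L := by
  have hL := P.L_pos
  have key : ∀ k, ∑ l ∈ Ico a (a + k), om ρ l ≤ 2 * om ρ a - 2 * om ρ (a + k) := by
    intro k
    induction k with
    | zero => simp
    | succ k ih =>
      rw [← add_assoc, sum_Ico_succ_top (Nat.le_add_right a k)]
      linarith [om_half h0 h1 (a + k)]
  have h2 : ∑ l ∈ Ico a B, om ρ l ≤ 2 * om ρ a := by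
    rcases le_total B a with h' | h'
    · rw [Ico_eq_empty_of_le h', sum_empty]; linarith [om_pos h0 a]
    · obtain ⟨k, rfl⟩ := Nat.exists_eq_add_of_le h'
      linarith [key k, om_pos h0 (a + k)]
  rw [SS, map_sum, sum_congr rfl fun l hl => P.E_sin_sq (om_pos h0 l).le
    (by linarith [om_anti h0 h1 (mem_Ico.1 hl).1]), ← sum_div]
  exact div_le_div_of_nonneg_right h2 hL.le

theorem gamma_lower (h0 : 0 < ρ) (h1 : ρ < 1 / 2) : ∃ γ : ℝ, 0 < γ ∧ γ ≤ 1 ∧ ∀ (m B : ℕ) (P : Samp),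
    P.L = lam ρ * om ρ m → 4 ≤ 2 * π / P.h → γ ≤ P.E (CC (om ρ) m B) := by
  have hl := lam_pos h1
  obtain ⟨k, hk⟩ := exists_pow_lt_of_lt_one (by positivity : 0 < lam ρ / 4) (by linarith : ρ < 1)
  refine ⟨(1 / 2) ^ (k + 1), by positivity, pow_le_one₀ (by norm_num) (by norm_num),
    fun m B P hL hT => ?_⟩
  have hp := om_pos h0 m
  have hL1 : P.L ≤ 1 := by
    have := om_le h0 h1 m
    have := lam_le h0 h1
    nlinarith
  have key : ∀ i, (1 / 2) ^ i * P.E (CC (om ρ) (m + i) B) ≤ P.E (CC (om ρ) m B) := by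
    intro i
    induction i with
    | zero => simp
    | succ i ih =>
      have := mul_le_mul_of_nonneg_left (E_half h0 h1 P (by linarith) (m + i) B)
        (by positivity : 0 ≤ (1 / 2 : ℝ) ^ i)
      rw [pow_succ, ← add_assoc]
      linarith
  have e : om ρ (m + k) = ρ ^ k * om ρ m := by simp only [om]; ring
  have h4 : 4 * om ρ (m + k) ≤ P.L := by rw [e, hL]; nlinarith
  have h5 := E_SS h0 h1 P (a := m + k) (by linarith [om_pos h0 (m + k)]) B
  have h6 : 2 * om ρ (m + k) / P.L ≤ 1 / 2 := by rw [div_le_iff₀ P.L_pos]; linarith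
  have h7 := P.E_mono (F := 1 - SS (om ρ) (m + k) B) (one_sub_SS_le (om ρ) (m + k) B)
  rw [map_sub, P.E_one] at h7
  have h8 := mul_le_mul_of_nonneg_left (show 1 / 2 ≤ P.E (CC (om ρ) (m + k) B) by linarith)
    (by positivity : 0 ≤ (1 / 2 : ℝ) ^ k)
  rw [pow_succ]
  linarith [key k]

end Pool.Agent.Lib.MP_e0da8e_an.TR
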