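import Pool.Agent.Lib.MP_e0da8e_an.TR.Step

/-! Finite truncation of one window, and the average over sparse windows. -/

namespace Pool.Agent.Lib.MP_e0da8e_an.TR

open Real Finset Filter

variable {ρ : ℝ}

lemma trunc (P : Samp) (W F : BF) (hW : ∀ x, 0 ≤ W x) {N κ w : ℝ} (hκ : 0 < κ)
    (hF0 : ∀ x, 0 ≤ F x) (hF : ∀ x, F x ≤ N) (I0 : Finset ℤ) {η : ℝ}
    (hI : P.E W - η < ∑ k ∈ I0, P.w k * W (P.h * k)) :
    ∑ k ∈ I0.filter (fun k : ℤ => cos (w * (P.h * k)) ^ 2 ≤ κ), P.w k * W (P.h * k) * F (P.h * k) ≤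
      P.E (W * F) ∧
    P.E (W * F) - η * N - 1 / κ * P.E (W * (Cs w * Cs w) * F) ≤
      ∑ k ∈ I0.filter (fun k : ℤ => cos (w * (P.h * k)) ^ 2 ≤ κ),
        P.w k * W (P.h * k) * F (P.h * k) := by
  have hnn : ∀ k, 0 ≤ P.w k * W (P.h * k) := fun k => mul_nonneg (P.w_nonneg k) (hW _)
  have hs := P.hasSum (W * F)
  simp only [bf_mul, ← mul_assoc] at hs
  refine ⟨sum_le_hasSum _ (fun k _ => mul_nonneg (hnn k) (hF0 _)) hs, ?_⟩
  have hN0 : 0 ≤ N := (hF0 0).trans (hF 0)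
  have h3 := sum_le_hasSum I0 (fun k _ => by
    have := mul_nonneg (hnn k) (sub_nonneg.2 (hF (P.h * k)))
    linarith) (((P.hasSum W).mul_right N).sub hs)
  rw [sum_sub_distrib, ← sum_mul] at h3
  have h4 := mul_le_mul_of_nonneg_right hI.le hN0
  have h10 : ∑ k ∈ I0, P.w k * (W * (Cs w * Cs w) * F) (P.h * k) ≤ P.E (W * (Cs w * Cs w) * F) :=
    sum_le_hasSum I0 (fun k _ => mul_nonneg (P.w_nonneg k)
      (mul_nonneg (mul_nonneg (hW _) (mul_self_nonneg _)) (hF0 _)))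
      (P.hasSum (W * (Cs w * Cs w) * F))
  have h11 : ∑ k ∈ I0, P.w k * W (P.h * k) * F (P.h * k) ≤
      ∑ k ∈ I0.filter (fun k : ℤ => cos (w * (P.h * k)) ^ 2 ≤ κ),
        P.w k * W (P.h * k) * F (P.h * k) +
      1 / κ * ∑ k ∈ I0, P.w k * (W * (Cs w * Cs w) * F) (P.h * k) := by
    rw [sum_filter, mul_sum, ← sum_add_distrib]
    refine sum_le_sum fun k _ => ?_
    simp only [bf_mul, Cs_apply]
    have h12 := mul_nonneg (hnn k) (hF0 (P.h * k))
    have e : 1 / κ * (P.w k * (W (P.h * k) * (cos (w * (P.h * k)) *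
        cos (w * (P.h * k))) * F (P.h * k))) =
        (cos (w * (P.h * k)) ^ 2 / κ) * (P.w k * W (P.h * k) * F (P.h * k)) := by ring
    rw [e]
    split_ifs with h
    · have : 0 ≤ cos (w * (P.h * k)) ^ 2 / κ := by positivity
      nlinarith
    · have : 1 ≤ cos (w * (P.h * k)) ^ 2 / κ := by
        rw [one_le_div hκ]; linarith
      nlinarith
  have h13 := mul_le_mul_of_nonneg_left h10 (by positivity : 0 ≤ 1 / κ)
  linarith

theorem step_fin (h0 : 0 < ρ) (h1 : ρ < 1 / 2) {j p h : ℕ} (hrel : NoRel ρ j p) {γ : ℝ}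
    (hγ : ∀ (m B : ℕ) (P : Samp), P.L = lam ρ * om ρ m → 4 ≤ 2 * π / P.h →
      γ ≤ P.E (CC (om ρ) m B))
    (H H' : Head j p h) (hW : ∀ a, h ≤ a →
      H'.W (om ρ) a = H.W (om ρ) a * (Cs (om ρ j) * Cs (om ρ j))) {δ : ℝ}
    (hc : ∀ S, H'.c S ≤ δ) {κ : ℝ} (hκ : 0 < κ) : ∃ C : ℝ, 0 ≤ C ∧ ∀ (K ε : ℝ), 0 ≤ K → 0 < ε →
    ∀ a, ∃ a', a < a' ∧ ∃ (I : Finset ℤ) (x t : ℤ → ℝ), (∀ k, 0 ≤ t k) ∧ (∀ k, t k ≤ 1) ∧
      (∀ k ∈ I, cos (om ρ j * x k) ^ 2 ≤ κ) ∧ (h ≤ a → ∀ B, a' ≤ B → ∀ z : Finset ℕ → ℝ,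
      ∑ k ∈ I, t k * AA (om ρ) B z (x k) ^ 2 ≤
        K * (2 * H.dia a z + C * (nrm a' z - nrm a z) + ε * nrm B z) ∧
      K * (γ / 2 * H.dia a z - C * (nrm a' z - nrm a z) - (ε + 2 * δ / κ) * nrm B z) ≤
        ∑ k ∈ I, t k * AA (om ρ) B z (x k) ^ 2) := by
  refine ⟨4 * ‖H.W (om ρ) h‖ + 1 / κ * (4 * ‖H'.W (om ρ) h‖), by positivity,
    fun K ε hK hε a => ?_⟩
  by_cases ha : h ≤ a
  swap
  · exact ⟨a + 1, by omega, ∅, 0, 0, fun _ => le_rfl, fun _ => zero_le_one, by simp,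
      fun h' => absurd h' ha⟩
  obtain ⟨k, k1, k2⟩ := ((step_E h0 h1 hrel hγ H ha (by positivity : 0 < ε / 3)).and
    (step_E h0 h1 hrel hγ H' ha (by positivity : 0 < ε / 3 * κ))).exists
  obtain ⟨a', ⟨b1, b2⟩, b3⟩ := ((k1.and k2).and (eventually_gt_atTop a)).exists
  set L := lam ρ * om ρ (a + k) with hL
  have hL0 : 0 < L := mul_pos (lam_pos h1) (om_pos h0 _)
  set W := H.W (om ρ) (a + k) with hWd
  obtain ⟨T, ⟨c1, c2⟩, c3⟩ := ((b1.and b2).and
    (eventually_ge_atTop (2 * L + K * L * ‖W‖))).exists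
  have hKW : 0 ≤ K * L * ‖W‖ := by positivity
  have hT : 0 < T := by linarith
  have hπ := pi_pos
  have eh : 2 * π / (2 * π / T) = T := by field_simp
  let P : Samp := ⟨2 * π / T, L, by positivity, hL0, by rw [eh]; linarith⟩
  have hW0 := H.W_nonneg (om ρ) (a + k)
  obtain ⟨I0, hI0⟩ : ∃ I0 : Finset ℤ, P.E W - ε / 3 < ∑ k ∈ I0, P.w k * W (P.h * k) :=
    ((P.hasSum W).eventually (lt_mem_nhds (by linarith))).exists
  refine ⟨a', b3, I0.filter (fun k => cos (om ρ j * (P.h * k)) ^ 2 ≤ κ), fun k => P.h * k,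
    fun k => K * (P.w k * W (P.h * k)), fun k => mul_nonneg hK (mul_nonneg (P.w_nonneg k) (hW0 _)),
    fun i => ?_, fun k hk => (mem_filter.1 hk).2, fun _ B hB z => ?_⟩
  · have h2 : W (P.h * i) ≤ ‖W‖ := (le_abs_self _).trans (W.norm_coe_le_norm _)
    have h3 : P.w i * W (P.h * i) ≤ P.L * P.h / (2 * π) * ‖W‖ :=
      mul_le_mul (P.w_le i) h2 (hW0 _) P.r_pos.le
    refine (mul_le_mul_of_nonneg_left h3 hK).trans ?_
    have e : K * (P.L * P.h / (2 * π) * ‖W‖) = K * L * ‖W‖ / T := by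
      simp only [P]; field_simp
    rw [e, div_le_one hT]
    linarith
  · obtain ⟨t1, t2⟩ := trunc P W (AA (om ρ) B z ^ 2) hW0 (w := om ρ j) hκ (fun x => sq_nonneg _)
      (AA_sq_le (om ρ) B z) I0 hI0
    obtain ⟨u1, u2⟩ := c1 P rfl eh B hB z
    obtain ⟨u3, -⟩ := c2 P rfl eh B hB z
    rw [hW _ (by omega), ← hWd] at u3
    rw [← nrm] at t2
    simp only [bf_pow] at t1 t2
    simp only [mul_assoc K, ← mul_sum]
    have hN := nrm_nonneg B z
    have d1 := sub_nonneg.2 (nrm_mono b3.le z)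
    have d2 : 0 ≤ 1 / κ * (4 * ‖H'.W (om ρ) h‖) * (nrm a' z - nrm a z) := by positivity
    have d3 := mul_nonneg hε.le hN
    have hδ : 0 ≤ δ := (H'.c_nonneg ∅).trans (hc ∅)
    have d4 : H'.dia a z ≤ δ * nrm B z := by
      refine le_trans ?_ (mul_le_mul_of_nonneg_left (nrm_mono (show a ≤ B by omega) z) hδ)
      rw [nrm, mul_sum]
      exact sum_le_sum fun S _ => mul_le_mul_of_nonneg_right (hc S) (sq_nonneg _)
    have d5 := mul_le_mul_of_nonneg_left (show P.E (W * (Cs (om ρ j) * Cs (om ρ j)) *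
      AA (om ρ) B z ^ 2) ≤ 2 * (δ * nrm B z) + 4 * ‖H'.W (om ρ) h‖ * (nrm a' z - nrm a z) +
        ε / 3 * κ * nrm B z by linarith) (by positivity : 0 ≤ 1 / κ)
    have e : 1 / κ * (2 * (δ * nrm B z) + 4 * ‖H'.W (om ρ) h‖ * (nrm a' z - nrm a z) +
        ε / 3 * κ * nrm B z) = 2 * δ / κ * nrm B z +
          1 / κ * (4 * ‖H'.W (om ρ) h‖) * (nrm a' z - nrm a z) + ε / 3 * nrm B z := by
      field_simp
    rw [e] at d5
    constructor <;> refine mul_le_mul_of_nonneg_left ?_ hK <;> linarith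

lemma exists_heads (ω : ℕ → ℝ) {j h : ℕ} (p : ℕ) (hj : j < h) : ∃ H H' : Head j p h,
    (∀ a, h ≤ a → H'.W ω a = H.W ω a * (Cs (ω j) * Cs (ω j))) ∧ (∀ S, H.c S = cc j p h S) ∧
      ∀ S, H'.c S ≤ 1 / (2 * p + 1) := by
  obtain ⟨α', β', hα', hβ', hw'⟩ := wtA' p
  have hu : ∀ d, Wt (fam (mom (0 + 1))⁻¹ 0 0) d 1 1 := fun d => by
    simpa using (wtA 0).mono (Nat.zero_le d)
  have h2 : ∀ x, fam (mom (0 + 1))⁻¹ 0 0 x = 2 := fun x => by
    have : mom (0 + 1) = 1 / 2 := by simp [mom_eq]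
    simp [fam, this]
  let φ : ℕ → BF := fun l => if l < h then phi j p l else fam (mom (0 + 1))⁻¹ 0 0
  let H : Head j p h := ⟨φ, fun l => if l = j then 1 / (2 * p + 1) else 1,
    fun l => if l < h then (if j < l then 1 / 3 else 1) else 1, fun l => by
      by_cases hl : l < h
      · simpa only [φ, if_pos hl] using wt_phi j p l
      · simpa only [φ, if_neg hl, if_neg (show l ≠ j by omega)] using hu _,
    fun l hl => by
      simp only [φ, if_neg (not_lt.2 hl), if_neg (show l ≠ j by omega)]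
      exact ⟨h2, trivial, trivial⟩⟩
  let H' : Head j p h := ⟨fun l => φ l * if l = j then Cs 1 * Cs 1 else 1,
    fun l => if l = j then α' else 1, fun l => if l = j then β' else H.β l, fun l => by
      by_cases hl : l = j
      · subst hl
        simpa [φ, hj, phi, dg] using hw'
      · have := H.wt l
        simpa [H, hl] using this,
    fun l hl => by
      have := H.tl l hl
      simpa [H, show l ≠ j by omega] using this⟩
  refine ⟨H, H', fun a ha => ?_, fun S => prod_congr rfl fun l hl => by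
    simp only [H, if_pos (mem_range.1 hl)], fun S => ?_⟩
  · simp only [Head.W, H, H', map_mul, prod_mul_distrib]
    congr 1
    rw [prod_eq_single j]
    · ext x; simp
    · intro l _ hl; simp [hl]
    · intro h'; exact absurd (mem_range.2 (by omega)) h'
  · simp only [Head.c, H', H]
    rw [← mul_prod_erase _ _ (mem_range.2 hj)]
    have h3 := hw'.α_nonneg
    have h4 := hw'.β_nonneg
    refine (mul_le_of_le_one_right (by split_ifs <;> simp_all) (prod_le_one (fun l hl => ?_)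
      fun l hl => ?_)).trans (by split_ifs <;> simp_all)
    all_goals
      simp only [if_neg (ne_of_mem_erase hl)]
      split_ifs <;> norm_num

theorem piece (h0 : 0 < ρ) (h1 : ρ < 1 / 2) {j p : ℕ} (hrel : NoRel ρ j p) {γ : ℝ} (hγ0 : 0 < γ)
    (hγ : ∀ (m B : ℕ) (P : Samp), P.L = lam ρ * om ρ m → 4 ≤ 2 * π / P.h →
      γ ≤ P.E (CC (om ρ) m B)) {h : ℕ} (hj : j < h) {K κ η : ℝ} (hK : 0 ≤ K) (hκ : 0 < κ)
    (hη : 0 < η) : ∃ n, h < n ∧ ∃ (I : Finset (Σ _ : ℕ, ℤ)) (x t : (Σ _ : ℕ, ℤ) → ℝ),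
      (∀ k, 0 ≤ t k) ∧ (∀ k, t k ≤ 1) ∧ (∀ k ∈ I, cos (om ρ j * x k) ^ 2 ≤ κ) ∧
      ∀ B, n ≤ B → ∀ z : Finset ℕ → ℝ,
      ∑ k ∈ I, t k * AA (om ρ) B z (x k) ^ 2 ≤
        K * (2 * ∑ S ∈ (range n).powerset, cc j p h S * z S ^ 2 + η * nrm B z) ∧
      K * (γ / 2 * ∑ S ∈ (range h).powerset, cc j p h S * z S ^ 2 -
        (η + 2 / ((2 * p + 1) * κ)) * nrm B z) ≤ ∑ k ∈ I, t k * AA (om ρ) B z (x k) ^ 2 := by
  obtain ⟨H, H', hW, hc, hc'⟩ := exists_heads (om ρ) p hj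
  obtain ⟨C, hC, hs⟩ := step_fin h0 h1 hrel hγ H H' hW hc' hκ
  obtain ⟨N, hN⟩ := exists_nat_gt (C / (η / 2))
  have hN0 : (0 : ℝ) < N := lt_of_le_of_lt (by positivity) hN
  have hCN : C ≤ η / 2 * N := by rw [div_lt_iff₀ (by positivity)] at hN; linarith
  choose f hf I x t t0 t1 hcos hb using hs (K / N) (η / 2) (by positivity) (by positivity)
  let a : ℕ → ℕ := fun i => f^[i] h
  have ea : ∀ i, a (i + 1) = f (a i) := fun i => Function.iterate_succ_apply' f i h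
  have ha : StrictMono a := strictMono_nat_of_lt_succ fun i => by rw [ea]; exact hf _
  have h2 : ∀ i, h ≤ a i := fun i => ha.monotone (Nat.zero_le i)
  refine ⟨a N, ha (show 0 < N by exact_mod_cast hN0), (range N).sigma fun i => I (a i),
    fun k => x (a k.1) k.2, fun k => t (a k.1) k.2, fun k => t0 _ _, fun k => t1 _ _,
    fun k hk => hcos _ _ (mem_sigma.1 hk).2, fun B hB z => ?_⟩
  have hd : ∀ b, ∑ S ∈ (range b).powerset, cc j p h S * z S ^ 2 = H.dia b z := fun b => by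
    simp only [Head.dia, hc]
  have h3 := fun i (hi : i ∈ range N) => hb (a i) (h2 i) B
    (by rw [← ea]; exact (ha.monotone (mem_range.1 hi)).trans hB) z
  have tel : ∑ i ∈ range N, (nrm (f (a i)) z - nrm (a i) z) ≤ nrm B z := by
    simp only [← ea]
    rw [sum_range_sub (fun i => nrm (a i) z)]
    linarith [nrm_nonneg (a 0) z, nrm_mono hB z]
  have hn := nrm_nonneg B z
  have tel2 : C * ∑ i ∈ range N, (nrm (f (a i)) z - nrm (a i) z) ≤ η / 2 * N * nrm B z :=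
    (mul_le_mul_of_nonneg_left tel hC).trans (mul_le_mul_of_nonneg_right hCN hn)
  have eK : ∀ y : ℝ, K * y = K / N * (N * y) := fun y => by field_simp
  rw [sum_sigma, hd, hd]
  constructor
  · refine (sum_le_sum fun i hi => (h3 i hi).1).trans ?_
    rw [← mul_sum, eK]
    refine mul_le_mul_of_nonneg_left ?_ (by positivity)
    have := sum_le_card_nsmul (range N) (fun i => H.dia (a i) z) _ fun i hi =>
      H.dia_mono (ha.monotone (mem_range.1 hi).le) z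
    simp only [sum_add_distrib, ← mul_sum, sum_const, card_range, nsmul_eq_mul] at this ⊢
    linarith
  · refine le_trans ?_ (sum_le_sum fun i hi => (h3 i hi).2)
    rw [← mul_sum, eK]
    refine mul_le_mul_of_nonneg_left ?_ (by positivity)
    have := card_nsmul_le_sum (range N) (fun i => H.dia (a i) z) _ fun i _ => H.dia_mono (h2 i) z
    rw [sum_sub_distrib, sum_sub_distrib, ← mul_sum, ← mul_sum]
    simp only [sum_const, card_range, nsmul_eq_mul] at this ⊢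
    have e : 2 * (1 / (2 * (p : ℝ) + 1)) / κ = 2 / ((2 * p + 1) * κ) := by field_simp
    rw [e]
    nlinarith

end Pool.Agent.Lib.MP_e0da8e_an.TR
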