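import Pool.Agent.Lib.MP_e0da8e_an.TR.Frame

/-! The hypothesis on monic polynomials excludes every admissible relation. -/

namespace Pool.Agent.Lib.MP_e0da8e_an.TR

open Finset Polynomial

variable {ρ : ℝ}

lemma sum_om_lt (h0 : 0 < ρ) (h1 : ρ < 1 / 2) (a B : ℕ) :
    ∑ l ∈ Ico (a + 1) B, om ρ l < om ρ a := by
  have key : ∀ k, ∑ l ∈ Ico (a + 1) (a + 1 + k), om ρ l ≤ om ρ a - 2 * om ρ (a + 1 + k) := by
    intro k
    induction k with
    | zero => simpa using om_half h0 h1 a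
    | succ k ih =>
      rw [← add_assoc, sum_Ico_succ_top (Nat.le_add_right _ k)]
      linarith [om_half h0 h1 (a + 1 + k)]
  rcases le_total B (a + 1) with h' | h'
  · rw [Ico_eq_empty_of_le h', sum_empty]; exact om_pos h0 a
  · obtain ⟨k, rfl⟩ := Nat.exists_eq_add_of_le h'
    linarith [key k, om_pos h0 (a + 1 + k)]

theorem noRel_of_monic (h0 : 0 < ρ) (h1 : ρ < 1 / 2)
    (h : ∀ (P : ℤ[X]) (j : ℕ), P.Monic → (∀ i, j < i → |P.coeff i| ≤ 1) →
      (∀ i, i < j → |P.coeff i| ≤ 2) → aeval ρ⁻¹ P ≠ 0) (j p : ℕ) : NoRel ρ j p := by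
  classical
  intro n q hq hne hsum
  have q1 : ∀ l < n, l < j → |q l| ≤ 1 := fun l hl hj => by simpa [dg, hj] using hq l hl
  have q2 : ∀ l < n, j < l → |q l| ≤ 2 := fun l hl hj => by
    have := hq l hl
    simpa [dg, hj.not_gt, hj.ne'] using this
  set a := Nat.find hne with ha
  obtain ⟨an, a0⟩ : a < n ∧ q a ≠ 0 := Nat.find_spec hne
  have amin : ∀ l < a, q l = 0 := fun l hl => by
    by_contra h'
    exact Nat.find_min hne hl ⟨by omega, h'⟩
  have a1 : |q a| ≤ 1 := by
    rcases lt_or_ge a j with hj | hj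
    · exact q1 a an hj
    rw [range_eq_Ico, ← sum_Ico_consecutive _ (Nat.zero_le a) an.le, sum_eq_zero fun l hl => by
      rw [amin l (mem_Ico.1 hl).2]; simp, zero_add, sum_eq_sum_Ico_succ_bot an] at hsum
    have b1 : |∑ l ∈ Ico (a + 1) n, (q l : ℝ) * om ρ l| ≤ 2 * ∑ l ∈ Ico (a + 1) n, om ρ l := by
      rw [mul_sum]
      refine (abs_sum_le_sum_abs _ _).trans (sum_le_sum fun l hl => ?_)
      rw [abs_mul, abs_of_pos (om_pos h0 l)]
      refine mul_le_mul_of_nonneg_right ?_ (om_pos h0 l).le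
      exact_mod_cast q2 l (mem_Ico.1 hl).2 (by have := (mem_Ico.1 hl).1; omega)
    rw [← neg_eq_of_add_eq_zero_right hsum, abs_neg, abs_mul, abs_of_pos (om_pos h0 a)] at b1
    have b2 : |(q a : ℝ)| < 2 :=
      lt_of_mul_lt_mul_right (by linarith [sum_om_lt h0 h1 a n]) (om_pos h0 a).le
    have b3 : |q a| < 2 := by exact_mod_cast b2
    omega
  have a2 : |q a| = 1 := le_antisymm a1 (Int.one_le_abs a0)
  have a3 : q a * q a = 1 := by rw [← abs_mul_abs_self, a2, one_mul]
  let P : ℤ[X] := ∑ l ∈ range n, monomial (n - 1 - l) (q a * q l)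
  have hc : ∀ i, P.coeff i = if i < n then q a * q (n - 1 - i) else 0 := by
    intro i
    simp only [P, finsetSum_coeff, coeff_monomial]
    split_ifs with hi
    · rw [sum_eq_single (n - 1 - i), if_pos (by omega)]
      · intro l hl hne
        exact if_neg (by have := mem_range.1 hl; omega)
      · intro h'; exact absurd (mem_range.2 (by omega)) h'
    · exact sum_eq_zero fun l _ => if_neg (by omega)
  refine h P (n - 1 - j) (monic_of_natDegree_le_of_coeff_eq_one (n - 1 - a) ?_ ?_) ?_ ?_ ?_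
  · refine natDegree_le_iff_coeff_eq_zero.2 fun i hi => ?_
    rw [hc]
    split_ifs with h'
    · rw [amin (n - 1 - i) (by omega), mul_zero]
    · rfl
  · rw [hc, if_pos (by omega), show n - 1 - (n - 1 - a) = a by omega, a3]
  · intro i hi
    rw [hc]
    split_ifs with h'
    · rw [abs_mul, a2, one_mul]; exact q1 _ (by omega) (by omega)
    · simp
  · intro i hi
    rw [hc, if_pos (by omega), abs_mul, a2, one_mul]
    exact q2 _ (by omega) (by omega)
  · have e : aeval ρ⁻¹ P = q a * ρ⁻¹ ^ n * ∑ l ∈ range n, (q l : ℝ) * om ρ l := by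
      simp only [P, map_sum, aeval_monomial, mul_sum]
      refine sum_congr rfl fun l hl => ?_
      obtain ⟨k, rfl⟩ : ∃ k, n = k + (l + 1) := ⟨n - (l + 1), by have := mem_range.1 hl; omega⟩
      rw [show k + (l + 1) - 1 - l = k by omega, pow_add, om, inv_pow ρ (l + 1)]
      simp only [eq_intCast, Int.cast_mul, algebraMap_int_eq]
      field_simp
    rw [e, hsum, mul_zero]

theorem hasFrame_of_monic (h0 : 0 < ρ) (h1 : ρ < 1 / 2)
    (h : ∀ (P : ℤ[X]) (j : ℕ), P.Monic → (∀ i, j < i → |P.coeff i| ≤ 1) →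
      (∀ i, i < j → |P.coeff i| ≤ 2) → aeval ρ⁻¹ P ≠ 0) {d : ℝ} (hd : 0 < d) :
    HasFourierFrame (bernoulliConv ρ d) :=
  hasFrame_of_noRel h0 h1 hd (noRel_of_monic h0 h1 h)

end Pool.Agent.Lib.MP_e0da8e_an.TR
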