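import Pool.Agent.Lib.MP_e0da8e_an.TR.Entry

/-! One window: comparison of its quadratic form with the diagonal form, up to one block. -/

namespace Pool.Agent.Lib.MP_e0da8e_an.TR

open Real Finset Filter

lemma AA_zero (ω : ℕ → ℝ) (B : ℕ) {z : Finset ℕ → ℝ} (hz : ∀ S ∈ (range B).powerset, z S = 0) :
    AA ω B z = 0 := sum_eq_zero fun S hS => by rw [hz S hS, zero_smul]

lemma AA_restrict (ω : ℕ → ℝ) (a k : ℕ) (z : Finset ℕ → ℝ) (x : ℝ) :
    AA ω (a + k) (fun S => if S ⊆ range a then z S else 0) x ^ 2 =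
      AA ω a z x ^ 2 * CC ω a (a + k) x := by
  induction k with
  | zero =>
    rw [CC_empty _ (by omega), bf_one, mul_one, add_zero, AA_apply, AA_apply]
    congr 1
    exact sum_congr rfl fun S hS => by rw [if_pos (mem_powerset.1 hS)]
  | succ k ih =>
    rw [← add_assoc, AA_succ, AA_zero ω (a + k) (z := fun S =>
      if insert (a + k) S ⊆ range a then z (insert (a + k) S) else 0) fun S _ => if_neg fun h => by
        have := mem_range.1 (h (mem_insert_self _ _)); omega]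
    rw [mul_zero, add_zero, bf_mul, mul_pow, ih, CC_apply, CC_apply,
      prod_Ico_succ_top (Nat.le_add_right a k), Cs_apply]
    ring

lemma nrm_succ (B : ℕ) (z : Finset ℕ → ℝ) :
    nrm (B + 1) z = nrm B z + nrm B fun S => z (insert B S) := sum_pow_succ B _

lemma AA_high (ω : ℕ → ℝ) (a k : ℕ) (x : ℝ) : ∀ z : Finset ℕ → ℝ, (∀ S ⊆ range a, z S = 0) →
    AA ω (a + k) z x ^ 2 ≤ SS ω a (a + k) x * nrm (a + k) z := by
  induction k with
  | zero =>
    intro z hz
    rw [add_zero, AA_zero ω a fun S hS => hz S (mem_powerset.1 hS), SS_apply]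
    simp
  | succ k ih =>
    intro z hz
    have h1 := ih z hz
    have h2 := AA_sq_le ω (a + k) (fun S => z (insert (a + k) S)) x
    rw [← nrm] at h2
    have h3 : 0 ≤ SS ω a (a + k) x := by rw [SS_apply]; exact sum_nonneg fun _ _ => sq_nonneg _
    have e : SS ω a (a + k + 1) x = SS ω a (a + k) x + sin (ω (a + k) * x) ^ 2 := by
      rw [SS_apply, SS_apply, sum_Ico_succ_top (Nat.le_add_right a k)]
    rw [← add_assoc, AA_succ, nrm_succ, e]
    simp only [bf_add, bf_mul, Cs_apply, Sn_apply]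
    have n0 := nrm_nonneg (a + k) z
    have n1 := nrm_nonneg (a + k) fun S => z (insert (a + k) S)
    generalize nrm (a + k) (fun S => z (insert (a + k) S)) = N1 at *
    generalize nrm (a + k) z = N0 at *
    generalize AA ω (a + k) (fun S => z (insert (a + k) S)) x = v at *
    generalize AA ω (a + k) z x = u at *
    generalize SS ω a (a + k) x = σ at *
    have hc := cos_sq_le_one (ω (a + k) * x)
    generalize cos (ω (a + k) * x) = c at *
    generalize sin (ω (a + k) * x) = s at *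
    have a1 : (c * u) ^ 2 ≤ σ * N0 := by rw [mul_pow]; nlinarith [sq_nonneg u]
    have a2 : (s * v) ^ 2 ≤ s ^ 2 * N1 := by rw [mul_pow]; nlinarith [sq_nonneg s]
    have a3 : 2 * (c * u) * (s * v) ≤ σ * N1 + s ^ 2 * N0 := by
      refine (le_abs_self _).trans (abs_le_of_sq_le_sq ?_ (by positivity))
      have a4 := mul_le_mul a1 a2 (sq_nonneg _) (by positivity)
      nlinarith [sq_nonneg (σ * N1 - s ^ 2 * N0)]
    nlinarith

variable {ρ : ℝ}

lemma unit_sep (h0 : 0 < ρ) (h1 : ρ < 1 / 2) (q : ℕ → ℤ) (n : ℕ) (hq : ∀ l < n, |q l| ≤ 1) :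
    ((∃ l < n, q l ≠ 0) → 2 * om ρ n ≤ |∑ l ∈ range n, (q l : ℝ) * om ρ l|) ∧
      |∑ l ∈ range n, (q l : ℝ) * om ρ l| ≤ 1 - 2 * om ρ n := by
  induction n with
  | zero =>
    refine ⟨fun ⟨l, hl, _⟩ => by omega, ?_⟩
    have := om_le h0 h1 0
    simp only [range_zero, sum_empty, abs_zero]; linarith
  | succ n ih =>
    obtain ⟨i1, i2⟩ := ih fun l hl => hq l (by omega)
    have hp := om_pos h0 n
    have hh := om_half h0 h1 n
    have b : |(q n : ℝ)| ≤ 1 := by exact_mod_cast hq n (by omega)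
    have b2 : |(q n : ℝ) * om ρ n| ≤ om ρ n := by rw [abs_mul, abs_of_pos hp]; nlinarith
    rw [sum_range_succ]
    have b3 := abs_add_le (∑ l ∈ range n, (q l : ℝ) * om ρ l) (q n * om ρ n)
    refine ⟨fun ⟨l, hl, hl0⟩ => ?_, by linarith⟩
    by_cases h : ∃ l < n, q l ≠ 0
    · linarith [i1 h, abs_sub_abs_le_abs_add (∑ l ∈ range n, (q l : ℝ) * om ρ l) (q n * om ρ n)]
    · push Not at h
      have hn : l = n := by
        by_contra hne
        exact hl0 (h l (by omega))
      rw [sum_eq_zero fun i hi => by rw [h i (mem_range.1 hi)]; simp, zero_add, abs_mul,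
        abs_of_pos hp]
      have : (1 : ℝ) ≤ |(q n : ℝ)| := by exact_mod_cast Int.one_le_abs (hn ▸ hl0)
      nlinarith

lemma unbiased (h0 : 0 < ρ) (h1 : ρ < 1 / 2) (P : Samp) {m : ℕ} (hL : P.L = lam ρ * om ρ m)
    (hT : 4 ≤ 2 * π / P.h) (k : ℕ) : ∀ z : Finset ℕ → ℝ,
    2 ^ m * P.E (AA (om ρ) (m + k) z ^ 2) ≤ nrm (m + k) z := by
  induction k with
  | zero =>
    intro z
    have hp := om_pos h0 m
    have hl := lam_le h0 h1
    have hL2 : P.L ≤ 2 * om ρ m := by rw [hL]; nlinarith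
    have hLp := P.L_pos
    let ω : ℕ → ℝ := fun l => if l < m then om ρ l else 0
    let C : Comp ω := ⟨m, fun _ => fam (mom (0 + 1))⁻¹ 0 0, fun _ => 0, fun _ => 1, fun _ => 1, P,
      fun l _ => by simpa using wtA 0, by
        rintro t ⟨q, hq, hne, rfl⟩
        obtain ⟨a1, a2⟩ := unit_sep h0 h1 q m (by simpa using hq)
        rw [sum_congr rfl (g := fun l => (q l : ℝ) * om ρ l) fun l hl => by
          simp only [ω, if_pos (mem_range.1 hl)], abs_mul, abs_two]
        constructor <;> linarith [a1 hne], fun k => by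
        simp only [ω, if_neg (show ¬ m + k < m by omega)]
        exact ⟨le_rfl, by positivity⟩⟩
    have h2 := C.diagA z z (G := 1) (one_mem_Sp ⟨by simp only [C]; linarith, hLp.le⟩)
    have e1 : AA ω m z = AA (om ρ) m z := sum_congr rfl fun S _ => by
      congr 1
      exact prod_congr rfl fun l hl => by simp only [ω, if_pos (mem_range.1 hl)]
    have e2 : C.W * (AA ω C.n z * AA ω C.n z) * 1 = (2 ^ m : ℝ) • AA (om ρ) m z ^ 2 := by
      ext x
      have : mom (0 + 1) = 1 / 2 := by simp [mom_eq]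
      simp only [C, Comp.W, e1, bf_mul, bf_prod, bf_smul, bf_pow, bf_one, scale_apply, fam, this,
        pow_zero]
      simp [sq]
    rw [e2, map_smul, C.P.E_one, one_mul] at h2
    refine le_of_eq (h2.trans (sum_congr rfl fun S _ => ?_))
    simp [C, Comp.c, sq]
  | succ k ih =>
    intro z
    rw [← add_assoc, nrm_succ]
    refine le_trans ?_ (add_le_add (ih z) (ih fun S => z (insert (m + k) S)))
    rw [← mul_add, ← map_add]
    refine mul_le_mul_of_nonneg_left (P.E_mono fun x => ?_) (by positivity)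
    rw [AA_succ]
    simp only [bf_add, bf_mul, bf_pow, Cs_apply, Sn_apply]
    have h3 := cos_sq_add_sin_sq (om ρ (m + k) * x)
    nlinarith [sq_nonneg (cos (om ρ (m + k) * x) * AA (om ρ) (m + k)
      (fun S => z (insert (m + k) S)) x - sin (om ρ (m + k) * x) * AA (om ρ) (m + k) z x)]

lemma E_W_le {j p h : ℕ} (H : Head j p h) (ω : ℕ → ℝ) (P : Samp) {m : ℕ} (hm : h ≤ m) {F G : BF}
    (hF : ∀ x, 0 ≤ F x) (hG : ∀ x, F x ≤ G x) :
    P.E (H.W ω m * F) ≤ ‖H.W ω h‖ * (2 ^ m * P.E G) := by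
  have := P.E_mono (F := H.W ω m * F) (G := (2 ^ m * ‖H.W ω h‖ : ℝ) • G) fun x =>
    mul_le_mul (H.W_le ω hm x) (hG x) (hF x) (by positivity)
  rw [map_smul, smul_eq_mul] at this
  linarith

lemma nrm_block {a a' B : ℕ} (h : a ≤ a') (h' : a' ≤ B) (z : Finset ℕ → ℝ) :
    nrm B (fun S => if S ⊆ range a then 0 else if S ⊆ range a' then z S else 0) =
      nrm a' z - nrm a z := by
  have e : ∀ b ≤ B, nrm b z = ∑ S ∈ (range B).powerset, if S ⊆ range b then z S ^ 2 else 0 := by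
    intro b hb
    rw [← sum_filter]
    refine sum_congr ?_ fun _ _ => rfl
    ext S
    simp only [mem_filter, mem_powerset]
    exact ⟨fun h1 => ⟨h1.trans (range_subset_range.2 hb), h1⟩, fun h1 => h1.2⟩
  rw [e a' h', e a (h.trans h'), ← sum_sub_distrib]
  refine sum_congr rfl fun S _ => ?_
  by_cases h1 : S ⊆ range a
  · simp [h1, h1.trans (range_subset_range.2 h)]
  · simp [h1]

theorem step_E (h0 : 0 < ρ) (h1 : ρ < 1 / 2) {j p h : ℕ} (hrel : NoRel ρ j p) {γ : ℝ}
    (hγ : ∀ (m B : ℕ) (P : Samp), P.L = lam ρ * om ρ m → 4 ≤ 2 * π / P.h →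
      γ ≤ P.E (CC (om ρ) m B))
    (H : Head j p h) {a : ℕ} (ha : h ≤ a) {ε : ℝ} (hε : 0 < ε) :
    ∀ᶠ k in atTop, ∀ᶠ a' in atTop, ∀ᶠ T in atTop, ∀ P : Samp, P.L = lam ρ * om ρ (a + k) →
      2 * π / P.h = T → ∀ B, a' ≤ B → ∀ z : Finset ℕ → ℝ,
        P.E (H.W (om ρ) (a + k) * AA (om ρ) B z ^ 2) ≤
          2 * H.dia a z + 4 * ‖H.W (om ρ) h‖ * (nrm a' z - nrm a z) + ε * nrm B z ∧
        γ / 2 * H.dia a z - 4 * ‖H.W (om ρ) h‖ * (nrm a' z - nrm a z) - ε * nrm B z ≤
          P.E (H.W (om ρ) (a + k) * AA (om ρ) B z ^ 2) := by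
  filter_upwards [scale_step h0 h1 hrel H ha (by positivity : 0 < ε / 4)] with k hk
  set L := lam ρ * om ρ (a + k) with hLd
  have hL0 : 0 < L := mul_pos (lam_pos h1) (om_pos h0 _)
  set C := ‖H.W (om ρ) h‖ with hC
  have hC0 : 0 ≤ C := norm_nonneg _
  have ht : Tendsto (om ρ) atTop (nhds 0) :=
    (tendsto_pow_atTop_nhds_zero_of_lt_one h0.le (by linarith)).comp (tendsto_add_atTop_nat 1)
  have ht2 := ((ht.const_mul 2).div_const L).const_mul (C * 2 ^ (a + k))
  simp only [mul_zero, zero_div] at ht2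
  filter_upwards [eventually_ge_atTop (a + k), ht.eventually_le_const (half_pos hL0),
    ht2.eventually_le_const (by positivity : 0 < ε / 8)] with a' g1 g2 g3
  filter_upwards [hk, eventually_ge_atTop 4] with T hT hT4 P hL hP B hB z
  set z1 : Finset ℕ → ℝ := fun S => if S ⊆ range a then z S else 0 with hz1
  set z2 : Finset ℕ → ℝ := fun S => if S ⊆ range a then 0 else if S ⊆ range a' then z S else 0
    with hz2
  set z3 : Finset ℕ → ℝ := fun S => if S ⊆ range a' then 0 else z S with hz3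
  have hsplit : ∀ x, AA (om ρ) B z x =
      AA (om ρ) B z1 x + AA (om ρ) B z2 x + AA (om ρ) B z3 x := by
    intro x
    simp only [AA_apply, ← sum_add_distrib, ← add_mul]
    refine sum_congr rfl fun S _ => ?_
    congr 1
    by_cases b1 : S ⊆ range a
    · simp [hz1, hz2, hz3, b1, b1.trans (range_subset_range.2 (by omega : a ≤ a'))]
    · by_cases b2 : S ⊆ range a' <;> simp [hz1, hz2, hz3, b1, b2]
  have q1 := hT P hL hP B (by omega) z
  have e1 : AA (om ρ) a z ^ 2 * CC (om ρ) a B = AA (om ρ) B z1 ^ 2 := by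
    obtain ⟨r, rfl⟩ := Nat.exists_eq_add_of_le (show a ≤ B by omega)
    ext x
    exact (AA_restrict (om ρ) a r z x).symm
  rw [e1, abs_le] at q1
  have q2 : P.E (H.W (om ρ) (a + k) * AA (om ρ) B z2 ^ 2) ≤ C * (nrm a' z - nrm a z) := by
    refine (E_W_le H _ P (by omega) (fun x => sq_nonneg _) fun x => le_rfl).trans
      (mul_le_mul_of_nonneg_left ?_ hC0)
    obtain ⟨r, rfl⟩ := Nat.exists_eq_add_of_le (show a + k ≤ B by omega)
    rw [← nrm_block (by omega) hB z]
    exact unbiased h0 h1 P hL (hP ▸ hT4) r z2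
  have hN := nrm_nonneg B z
  have q3 : P.E (H.W (om ρ) (a + k) * AA (om ρ) B z3 ^ 2) ≤ ε / 8 * nrm B z := by
    obtain ⟨r, rfl⟩ := Nat.exists_eq_add_of_le hB
    have b1 : nrm (a' + r) z3 ≤ nrm (a' + r) z := sum_le_sum fun S _ => by
      simp only [hz3]; split_ifs <;> simp [sq_nonneg]
    refine (E_W_le H _ P (by omega) (G := nrm (a' + r) z • SS (om ρ) a' (a' + r))
      (fun x => sq_nonneg _) fun x => ?_).trans ?_
    · refine (AA_high (om ρ) a' r x z3 fun S hS => if_pos hS).trans ?_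
      rw [bf_smul, mul_comm]
      refine mul_le_mul_of_nonneg_right b1 ?_
      rw [SS_apply]; exact sum_nonneg fun _ _ => sq_nonneg _
    · have b2 := E_SS h0 h1 P (a := a') (by rw [hL]; linarith) (a' + r)
      rw [hL] at b2
      have b3 := (mul_le_mul_of_nonneg_left b2 (by positivity : 0 ≤ C * 2 ^ (a + k))).trans g3
      rw [map_smul, smul_eq_mul]
      nlinarith
  have u1 : P.E (H.W (om ρ) (a + k) * AA (om ρ) B z ^ 2) ≤
      P.E ((2 : ℝ) • (H.W (om ρ) (a + k) * AA (om ρ) B z1 ^ 2) +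
        (4 : ℝ) • (H.W (om ρ) (a + k) * AA (om ρ) B z2 ^ 2) +
        (4 : ℝ) • (H.W (om ρ) (a + k) * AA (om ρ) B z3 ^ 2)) := by
    refine P.E_mono fun x => ?_
    simp only [bf_add, bf_smul, bf_mul, bf_pow, hsplit x]
    generalize AA (om ρ) B z1 x = u; generalize AA (om ρ) B z2 x = v
    generalize AA (om ρ) B z3 x = w
    have : (u + v + w) ^ 2 ≤ 2 * u ^ 2 + 4 * v ^ 2 + 4 * w ^ 2 := by
      nlinarith [sq_nonneg (u - v - w), sq_nonneg (v - w)]
    nlinarith [mul_le_mul_of_nonneg_left this (H.W_nonneg (om ρ) (a + k) x)]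
  have u2 : P.E (H.W (om ρ) (a + k) * AA (om ρ) B z1 ^ 2) ≤
      P.E ((2 : ℝ) • (H.W (om ρ) (a + k) * AA (om ρ) B z ^ 2) +
        (4 : ℝ) • (H.W (om ρ) (a + k) * AA (om ρ) B z2 ^ 2) +
        (4 : ℝ) • (H.W (om ρ) (a + k) * AA (om ρ) B z3 ^ 2)) := by
    refine P.E_mono fun x => ?_
    simp only [bf_add, bf_smul, bf_mul, bf_pow, hsplit x]
    generalize AA (om ρ) B z1 x = u; generalize AA (om ρ) B z2 x = v
    generalize AA (om ρ) B z3 x = w
    have : u ^ 2 ≤ 2 * (u + v + w) ^ 2 + 4 * v ^ 2 + 4 * w ^ 2 := by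
      nlinarith [sq_nonneg (u + 2 * v + 2 * w), sq_nonneg (v - w)]
    nlinarith [mul_le_mul_of_nonneg_left this (H.W_nonneg (om ρ) (a + k) x)]
  simp only [map_add, map_smul, smul_eq_mul] at u1 u2
  have d0 := H.dia_nonneg a z
  have d1 := mul_le_mul_of_nonneg_right (E_CC_le P (om ρ) (a + k) B) d0
  have d2 := mul_le_mul_of_nonneg_right (hγ (a + k) B P hL (hP ▸ hT4)) d0
  have d3 := mul_le_mul_of_nonneg_left (nrm_mono (show a ≤ B by omega) z) hε.le
  have d4 := mul_nonneg hC0 (sub_nonneg.2 (nrm_mono (show a ≤ a' by omega) z))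
  have d5 := mul_nonneg hε.le hN
  constructor <;> linarith [q1.1, q1.2]

end Pool.Agent.Lib.MP_e0da8e_an.TR
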